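import Pool.Agent.MP_71da5e_an.Two.Est

/-! From the Cauchy data of two domains to the estimate for test functions. -/

namespace Pool.Agent.MP_71da5e_an.A

open MeasureTheory Metric Set Laplacian Filter Topology
open scoped ContDiff ENNReal RealInnerProductSpace NNReal Manifold

variable {n : ℕ}

theorem data_gen {Ω B Z K : Set (E n)} (hΩ : IsOpen Ω) (hZ : MeasurableSet Z) (hZΩ : Z ⊆ Ω)
    (hK : K ⊆ Ω ∪ B) {A A' C₁ : ℝ} {q₁ q₂ f : E n → ℂ} (h₁ : Bd A q₁) (h₂ : Bd A q₂)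
    (hf : Bd A' f) (f2 : ∀ x, x ∉ Z → f x = 0) (e₁ : Est Ω B q₁ C₁) (u₁ : UC Ω B Z q₁)
    {c₂ : ℝ≥0∞} (t2 : c₂ ≠ ⊤)
    (hyp : ∀ u, Ann Ω B q₁ u → ∀ v, Tst v → tsupport v ⊆ K →
      ‖∫ x, u x * (f x * v x)‖ₑ ^ 2 ≤ c₂ * Q (ind Z) (Pq q₂ v) * Q (ind Z) u) :
    ∃ C : ℝ, Data K Z q₁ q₂ f C := by
  generalize hc₁ : ENNReal.ofReal C₁ = c₁
  generalize ha : ENNReal.ofReal (A' ^ 2) = a
  have t1 : c₁ ≠ ⊤ := hc₁ ▸ ENNReal.ofReal_ne_top
  have t3 : a ≠ ⊤ := ha ▸ ENNReal.ofReal_ne_top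
  refine ⟨(4 * c₁ * a + 4 * c₁ * c₂ + 2 * c₂).toReal, fun v₁ v₂ hv₁ hv₂ s₁ s₂ => ?_⟩
  rw [ENNReal.ofReal_toReal (by finiteness)]
  have f1 : Measurable f := hf.1
  have f4 : ∀ u : E n → ℂ, N2 (fun x => f x * u x) ≤ a * Q (ind Z) u := fun u => by
    rw [← ha, ← dataA_ind]
    refine dataA_mul fun x => ?_
    by_cases e : x ∈ Z
    · rw [indicator_of_mem e, norm_mul]
      exact mul_le_mul_of_nonneg_right (hf.2 x) (norm_nonneg _)
    · simp [f2 x e, indicator_of_notMem e]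
  have m1 := hv₁.1.continuous.measurable
  have m2 := hv₂.1.continuous.measurable
  have m3 : Measurable fun x => f x * v₂ x := f1.mul m2
  have y1 : Q (ind Z) v₂ ≠ ⊤ := ne_top_of_le_ne_top (dataA_tst hv₂) (Q_ind_le _ _)
  have y2 : Q (ind Z) (Pq q₂ v₂) ≠ ⊤ := ne_top_of_le_ne_top (dataA_Pq h₂ hv₂).2 (Q_ind_le _ _)
  have y3 : N2 (fun x => f x * v₂ x) ≠ ⊤ := ne_top_of_le_ne_top (by finiteness) (f4 v₂)
  obtain ⟨U, k1, k2, k3⟩ := dataA_dual (Ω := Ω) (B := B) (q := q₁) hZ m3 y3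
    (C := c₂ * Q (ind Z) (Pq q₂ v₂)) (by finiteness) fun u hu => by
      rw [dataA_ind]
      exact hyp u hu v₂ hv₂ s₂
  have k4 : N2 (Z.indicator U) ≤ c₂ * Q (ind Z) (Pq q₂ v₂) := by
    rw [dataA_ind]
    exact (Q_ind_le _ _).trans k2
  have k5 : N2 (Z.indicator U) ≠ ⊤ := ne_top_of_le_ne_top (by finiteness) k4
  have k6 : ∀ u : E n → ℂ, (fun x => Z.indicator U x * u x) = fun x => U x * Z.indicator u x :=
    fun u => funext fun x => by by_cases e : x ∈ Z <;> simp [e]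
  have g0 : ∀ x, x ∉ Z → f x * v₂ x - Z.indicator U x = 0 := fun x hx => by
    rw [f2 x hx, indicator_of_notMem hx, zero_mul, sub_zero]
  have g1 : N2 (fun x => f x * v₂ x - Z.indicator U x) ≤
      2 * (a * Q (ind Z) v₂) + 2 * (c₂ * Q (ind Z) (Pq q₂ v₂)) := by
    refine (dataA_two m3 fun _ => norm_sub_le _ _).trans ?_
    gcongr
    exact f4 v₂
  have g2 : L2 Ω fun x => f x * v₂ x - Z.indicator U x :=
    ⟨m3.sub (k1.indicator hZ), ne_top_of_le_ne_top (by finiteness) g1,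
      fun x hx => g0 x fun e => hx (hZΩ e)⟩
  obtain ⟨w, hw⟩ := range_of_perp hΩ.measurableSet h₁ e₁ g2 fun u hu => by
    simp only [mul_sub]
    rw [integral_sub (dataA_int hu.l2.meas m3 hu.l2.fin y3)
      (dataA_int hu.l2.meas (k1.indicator hZ) hu.l2.fin k5), ← k3 u hu, ← k6 u, sub_eq_zero]
    simp only [mul_comm]
  have b1 := hw.test_le hΩ hZ h₁ e₁ u₁ (Eventually.of_forall g0) hv₁ (s₁.trans hK)
  have b2 := dataA_cs k1 (m1.indicator hZ)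
  rw [dataA_ind, ← k6] at b2
  have b3 : ∫ x, f x * v₁ x * v₂ x =
      (∫ x, (f x * v₂ x - Z.indicator U x) * v₁ x) + ∫ x, Z.indicator U x * v₁ x := by
    rw [← integral_add (dataA_int g2.meas m1 g2.fin (dataA_tst hv₁))
      (dataA_int (k1.indicator hZ) m1 k5 (dataA_tst hv₁))]
    refine integral_congr_ae (Eventually.of_forall fun x => ?_)
    simp only
    ring
  rw [b3]
  refine (dataA_sq _ _).trans ?_
  rw [hc₁] at b1
  generalize Q (ind Z) (Pq q₁ v₁) = X at *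
  generalize Q (ind Z) v₂ = Y at *
  generalize Q (ind Z) (Pq q₂ v₂) = W at *
  generalize Q (ind Z) v₁ = T at *
  calc _ ≤ 2 * (c₁ * (2 * (a * Y) + 2 * (c₂ * W)) * X) + 2 * (c₂ * W * T) := by
        gcongr
        · exact b1.trans (by gcongr)
        · exact b2.trans (by gcongr)
    _ ≤ _ + (4 * c₁ * a * (X * W + T * W) + 4 * c₁ * c₂ * (X * Y + T * W) +
        2 * c₂ * (X * (Y + W))) := le_self_add
    _ = _ := by ring

section
variable {Ω₁ Ω₂ U B G : Set (E n)} {A : ℝ} {q₁ q₂ : E n → ℂ}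

/-- The difference of a pair vanishes where the potentials agree. -/
theorem Pr.zero (hG : IsOpen G) (hc : IsPreconnected G) (hGW : G ⊆ Ω₁ ∩ Ω₂ ∪ U) {y₀ : E n}
    (hy : y₀ ∈ G) {s : ℝ} (hs : 0 < s) (hd₁ : Disjoint (ball y₀ s) Ω₁)
    (hd₂ : Disjoint (ball y₀ s) Ω₂) (h₁ : Bd A q₁) (h₂ : Bd A q₂)
    (hf : ∀ᵐ x, x ∈ G → x ∈ Ω₁ → q₁ x = q₂ x) {u₁ u₂ : E n → ℂ}
    (hu : Pr Ω₁ Ω₂ U B q₁ q₂ u₁ u₂) : ∀ᵐ x, x ∈ G → u₁ x - u₂ x = 0 := by
  refine ucp hG hc hy hs h₂ (hu.l1.wl2.mul (tw_bd h₁ h₂).1 (tw_bd h₁ h₂).2)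
    (WP.mono' (hu.wp h₁ h₂) hGW) hu.fin ?_ (Eventually.of_forall fun x hx => ?_)
  · filter_upwards [hf] with x hx hxG
    by_cases h : x ∈ Ω₁
    · rw [hx hxG h, sub_self, zero_mul]
    · rw [hu.l1.zero x h, mul_zero]
  · rw [hu.l1.zero x (disjoint_left.1 hd₁ hx), hu.l2.zero x (disjoint_left.1 hd₂ hx), sub_zero]

theorem data_two (hΩ₁ : Dom Ω₁) (hΩ₂ : Dom Ω₂) (hU : IsOpen U) (hUΩ : Ω₁ ∩ U = Ω₂ ∩ U)
    (hB : IsOpen B) (hBU : closure B ⊆ U) (hc₁ : IsPreconnected (Ω₁ ∪ B))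
    (hc₂ : IsPreconnected (Ω₂ ∪ B)) {y₀ : E n} (hy : y₀ ∈ B) {s : ℝ}
    (hs : 0 < s) (hd₁ : Disjoint (ball y₀ s) Ω₁) (hd₂ : Disjoint (ball y₀ s) Ω₂)
    (hG : IsOpen G) (hc : IsPreconnected G) (hyG : y₀ ∈ G) (hGW : closure G ⊆ Ω₁ ∩ Ω₂ ∪ B)
    (h₁ : Bd A q₁) (h₂ : Bd A q₂) (hf : ∀ᵐ x, x ∈ G → x ∈ Ω₁ → q₁ x = q₂ x)
    (hyp : ∀ u, Ann Ω₁ B q₁ u → ∃ v, Pr Ω₁ Ω₂ U B q₁ q₂ u v) :
    ∃ C : ℝ, Data (Ω₁ ∩ Ω₂ ∪ B) (Ω₁ \ G) q₁ q₂
      ((Ω₁ \ G).indicator fun x => q₁ x - q₂ x) C := by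
  have hZ : MeasurableSet (Ω₁ \ G) := hΩ₁.op.measurableSet.diff hG.measurableSet
  have i1 : Ω₁ ∩ Ω₂ ∪ B ⊆ Ω₁ ∩ Ω₂ ∪ U := union_subset_union_right _ (subset_closure.trans hBU)
  have i2 : Ω₁ ∩ Ω₂ ∪ B ⊆ Ω₁ ∪ B := union_subset_union_left _ inter_subset_left
  obtain ⟨C₁, e₁⟩ := est_exists hΩ₁ hB hc₁ hy hs hd₁ h₁
  obtain ⟨C, hC⟩ := two_est hΩ₁.op hΩ₂ hU (hUΩ.subset.trans inter_subset_left) hBU hc₂ hy hs
    hd₁ hd₂ hG.measurableSet (hGW.trans i1) h₁ h₂ hf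
  refine data_gen hΩ₁.op hZ sdiff_subset i2 h₁ h₂ (A' := 2 * A)
    ⟨(tw_bd h₁ h₂).1.indicator hZ, fun x => (norm_indicator_le_norm_self _ x).trans
      ((tw_bd h₁ h₂).2 x)⟩ (fun x hx => indicator_of_notMem hx _) e₁
    (uc_of_open hΩ₁.op hG hc ((subset_closure.trans hGW).trans i2) hyG hs hd₁ h₁)
    (c₂ := C) ENNReal.coe_ne_top fun u hu v hv hs' => ?_
  obtain ⟨u₂, hp⟩ := hyp u hu
  obtain ⟨p1, p2⟩ := dataA_Pq h₂ hv
  have z := hp.zero hG hc ((subset_closure.trans hGW).trans i1) hyG hs hd₁ hd₂ h₁ h₂ hf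
  have g2 : WL2 fun x => (q₁ x - q₂ x) * u x := hp.l1.wl2.mul (tw_bd h₁ h₂).1 (tw_bd h₁ h₂).2
  have e1 : ∫ x, ((q₁ x - q₂ x) * u x * v x - (u x - u₂ x) * Pq q₂ v x) = 0 := by
    rw [← hp.ww v hv (hs'.trans i1)]
    refine integral_congr_ae (Eventually.of_forall fun x => ?_)
    simp only [Pq]
    ring
  rw [integral_sub (g2.integrable_mul hv.1.continuous hv.2)
    (dataA_int hp.meas p1 hp.fin p2), sub_eq_zero] at e1
  have e2 : ∫ x, (u x - u₂ x) * Pq q₂ v x =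
      ∫ x, (u x - u₂ x) * (Ω₁ \ G).indicator (Pq q₂ v) x := by
    refine integral_congr_ae ?_
    filter_upwards [z] with x hx
    by_cases e : x ∈ Ω₁ \ G
    · rw [indicator_of_mem e]
    rw [indicator_of_notMem e, mul_zero]
    by_cases e' : x ∈ Ω₁
    · rw [hx (by_contra fun h => e ⟨e', h⟩), zero_mul]
    by_cases e'' : x ∈ tsupport v
    · have hxU : x ∈ U := (i1 (hs' e'')).resolve_left fun h => e' h.1
      rw [hp.l1.zero x e', hp.l2.zero x fun h => e' (hUΩ.superset ⟨h, hxU⟩).1, sub_zero, zero_mul]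
    · rw [Pq, image_eq_zero_of_notMem_tsupport e'',
        image_eq_zero_of_notMem_tsupport fun h => e'' (tsupport_lap v h), mul_zero, sub_zero,
        mul_zero]
  have e3 : ∫ x, u x * ((Ω₁ \ G).indicator (fun x => q₁ x - q₂ x) x * v x) =
      ∫ x, (q₁ x - q₂ x) * u x * v x := by
    refine integral_congr_ae ?_
    filter_upwards [(tw_src h₁ h₂ hf hp.l1).1] with x hx
    rw [hx]
    ring
  rw [e3, e1, e2]
  refine (dataA_cs hp.meas (p1.indicator hZ)).trans ?_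
  rw [dataA_ind, mul_right_comm]
  exact mul_le_mul_left (hC u u₂ hp) _

end

/-- A functional that vanishes on functions with small support vanishes. -/
theorem loc_glob (l : (E n → ℂ) → ℂ)
    (hl : ∀ φ ψ, ContDiff ℝ ∞ φ → ContDiff ℝ ∞ ψ → l (fun x => φ x + ψ x) = l φ + l ψ)
    (D : Set (E n)) {K : Set (E n)} (hK : IsCompact K)
    (h : ∀ x ∈ K, ∃ ε > 0, ∀ φ, ContDiff ℝ ∞ φ → (∀ z ∈ D, φ z = 0) → tsupport φ ⊆ ball x ε →
      l φ = 0) {φ : E n → ℂ} (hφ : ContDiff ℝ ∞ φ) (h0 : ∀ z ∈ D, φ z = 0)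
    (hs : tsupport φ ⊆ K) : l φ = 0 := by
  have key := hK.induction_on (p := fun s => ∃ N, IsOpen N ∧ s ⊆ N ∧ ∀ φ, ContDiff ℝ ∞ φ →
      (∀ z ∈ D, φ z = 0) → tsupport φ ⊆ N → l φ = 0)
    ⟨∅, isOpen_empty, Subset.rfl, fun φ hφ _ hs => by
      have e : φ = fun x => φ x + φ x := funext fun x => by
        rw [image_eq_zero_of_notMem_tsupport fun h => hs h, add_zero]
      have := hl φ φ hφ hφ
      rw [← e] at this
      exact left_eq_add.1 this⟩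
    (fun s t hst ⟨N, a, b, c⟩ => ⟨N, a, hst.trans b, c⟩)
    (fun s t ⟨N, a, b, c⟩ ⟨N', a', b', c'⟩ => ⟨N ∪ N', a.union a', union_subset_union b b',
      fun φ hφ h0 hs => by
        obtain ⟨β, b0, b1, -⟩ := exists_contMDiffMap_zero_one_nhds_of_isClosed (n := (⊤ : ℕ∞))
          𝓘(ℝ, E n) a.isClosed_compl ((isClosed_tsupport φ).inter a'.isClosed_compl)
          (disjoint_left.2 fun x hx hx' => (hs hx'.1).elim hx hx'.2)
        have hβ : ContDiff ℝ ∞ fun y => ((β y : ℝ) : ℂ) :=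
          Complex.ofRealCLM.contDiff.comp β.contMDiff.contDiff
        have c₁ : ContDiff ℝ ∞ fun y => (1 - ((β y : ℝ) : ℂ)) * φ y :=
          (contDiff_const.sub hβ).mul hφ
        have c₂ : ContDiff ℝ ∞ fun y => ((β y : ℝ) : ℂ) * φ y := hβ.mul hφ
        have e : φ = fun y => (1 - ((β y : ℝ) : ℂ)) * φ y + ((β y : ℝ) : ℂ) * φ y := by
          funext y
          ring
        rw [e, hl _ _ c₁ c₂, c' _ c₁ (fun z hz => by rw [h0 z hz, mul_zero]) fun x hx => ?_,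
          c _ c₂ (fun z hz => by rw [h0 z hz, mul_zero]) fun x hx => ?_, add_zero]
        · by_contra hx'
          refine notMem_tsupport_iff_eventuallyEq.2 ?_ hx
          filter_upwards [b0.filter_mono (nhds_le_nhdsSet hx')] with y hy
          simp [hy]
        · by_contra hx'
          refine notMem_tsupport_iff_eventuallyEq.2 ?_ hx
          filter_upwards [b1.filter_mono
            (nhds_le_nhdsSet (show x ∈ tsupport φ ∩ N'ᶜ from ⟨tsupport_mul_subset_right hx, hx'⟩))]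
            with y hy
          simp [hy]⟩)
    fun x hx => by
      obtain ⟨ε, hε, h1⟩ := h x hx
      exact ⟨ball x ε, mem_nhdsWithin_of_mem_nhds (ball_mem_nhds x hε), _, isOpen_ball,
        Subset.rfl, h1⟩
  obtain ⟨N, -, b, c⟩ := key
  exact c φ hφ h0 (hs.trans b)

theorem ann_key {Ω B : Set (E n)} (hΩ : Dom Ω) {A : ℝ} {q u φ : E n → ℂ} (hq : Bd A q)
    (h : Ann Ω B q u) (hφ : ContDiff ℝ ∞ φ) (h0 : ∀ x ∈ frontier Ω, φ x = 0)
    (hd : Disjoint (tsupport φ ∩ frontier Ω) B) : green Ω q u φ = 0 := by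
  have h1 := h.perp _ _ (vw_of_test hΩ hq hφ h0 hd)
  rw [green, ← integral_indicator hΩ.op.measurableSet, ← neg_eq_zero, ← integral_neg, ← h1]
  refine integral_congr_ae (Eventually.of_forall fun x => ?_)
  by_cases hx : x ∈ Ω
  · simp only [indicator_of_mem hx, Pq]
    ring
  · simp only [indicator_of_notMem hx, mul_zero, neg_zero]

theorem green_pair {Ω : Set (E n)} {q u : E n → ℂ} (hu : L2 Ω u) (φ : E n → ℂ) :
    green Ω q u φ = pair u (fun x => q x * u x) φ :=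
  setIntegral_eq_integral_of_forall_compl_eq_zero fun x hx => by
    rw [hu.zero x hx]
    ring

/-- The form in which the equality of the Cauchy data of two domains is used. -/
def HypT (Ω₁ Ω₂ U : Set (E n)) (q₁ q₂ : E n → ℂ) : Prop :=
  ∀ u₁, IsSol Ω₁ (U ∩ frontier Ω₁) q₁ u₁ → ∃ u₂, IsSol Ω₂ (U ∩ frontier Ω₂) q₂ u₂ ∧
    ∀ φ, ContDiff ℝ ∞ φ → tsupport φ ⊆ U → green Ω₁ q₁ u₁ φ = green Ω₂ q₂ u₂ φ

theorem tw_fr {Ω₁ Ω₂ U : Set (E n)} (hU : IsOpen U) (hUΩ : Ω₁ ∩ U = Ω₂ ∩ U) :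
    frontier Ω₁ ∩ U = frontier Ω₂ ∩ U := by
  rw [← frontier_inter_open_inter hU, hUΩ, frontier_inter_open_inter hU]

theorem pr_of_hyp {Ω₁ Ω₂ U B : Set (E n)} (hΩ₁ : Dom Ω₁) (hΩ₂ : Dom Ω₂) (hU : IsOpen U)
    (hUΩ : Ω₁ ∩ U = Ω₂ ∩ U) (hBU : closure B ⊆ U) {A : ℝ} {q₁ q₂ : E n → ℂ} (hq₁ : Bd A q₁)
    (hq₂ : Bd A q₂) (h : HypT Ω₁ Ω₂ U q₁ q₂) {u : E n → ℂ} (hu : Ann Ω₁ B q₁ u) :
    ∃ v, Pr Ω₁ Ω₂ U B q₁ q₂ u v := by
  have h₁ : IsSol Ω₁ (U ∩ frontier Ω₁) q₁ u :=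
    hu.isSol hΩ₁ (inter_subset_inter_left _ hBU) hq₁
  obtain ⟨u₂, h₂, he⟩ := h u h₁
  obtain ⟨v, hv, hae⟩ := L2.of_memLp hΩ₂.op.measurableSet h₂.memL2
  have e1 : ∀ φ, green Ω₂ q₂ u₂ φ = pair v (fun x => q₂ x * v x) φ := fun φ => by
    rw [← green_pair hv]
    exact integral_congr_ae (hae.mono fun x hx => by simp only [hx])
  refine ⟨v, hu.l2, hv, fun φ hφ hs => ?_, fun φ hφ h0 hd => ?_⟩
  · have e2 := loc_glob (fun φ => green Ω₁ q₁ u φ - green Ω₂ q₂ u₂ φ) (fun φ ψ a b => by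
      rw [green_add hΩ₁ hq₁ h₁.memL2 a b, green_add hΩ₂ hq₂ h₂.memL2 a b]
      ring) ∅ hφ.2 (fun x hx => by
        rcases hs hx with hx' | hx'
        · obtain ⟨ε, hε, hb⟩ := Metric.isOpen_iff.1 (hΩ₁.op.inter hΩ₂.op) x hx'
          refine ⟨ε, hε, fun ψ a _ b => ?_⟩
          rw [h₁.solves ψ a ((b.trans hb).trans inter_subset_left),
            h₂.solves ψ a ((b.trans hb).trans inter_subset_right), sub_zero]
        · obtain ⟨ε, hε, hb⟩ := Metric.isOpen_iff.1 hU x hx'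
          exact ⟨ε, hε, fun ψ a _ b => sub_eq_zero.2 (he ψ a (b.trans hb))⟩)
      hφ.1 (fun z hz => absurd hz (notMem_empty z)) Subset.rfl
    have i1 := ((hu.l2.wl2.mul hq₁.1 hq₁.2).integrable_mul hφ.1.continuous hφ.2).sub
      (hu.l2.wl2.integrable_mul hφ.lap.1.continuous hφ.lap.2)
    have i2 := ((hv.wl2.mul hq₂.1 hq₂.2).integrable_mul hφ.1.continuous hφ.2).sub
      (hv.wl2.integrable_mul hφ.lap.1.continuous hφ.lap.2)
    rw [e1, green_pair hu.l2, pair, pair] at e2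
    rw [← e2, pair]
    refine Eq.trans ?_ (integral_sub i1 i2)
    refine integral_congr_ae (Eventually.of_forall fun x => ?_)
    simp only
    ring
  · rw [← e1]
    refine loc_glob (fun φ => green Ω₂ q₂ u₂ φ)
      (fun φ ψ a b => green_add hΩ₂ hq₂ h₂.memL2 a b) (frontier Ω₂) hφ.2 (fun x hx => ?_)
      hφ.1 h0 Subset.rfl
    by_cases x1 : x ∈ U
    · obtain ⟨ε, hε, hb⟩ := Metric.isOpen_iff.1 (hU.inter (isClosed_closure (s := B)).isOpen_compl)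
        x ⟨x1, disjoint_left.1 hd hx⟩
      refine ⟨ε, hε, fun ψ a b c => ?_⟩
      rw [← he ψ a ((c.trans hb).trans inter_subset_left)]
      refine ann_key hΩ₁ hq₁ hu a (fun z hz => ?_)
        (disjoint_left.2 fun z hz hz' => (hb (c hz.1)).2 (subset_closure hz'))
      by_cases z1 : z ∈ U
      · exact b z ((tw_fr hU hUΩ).subset ⟨hz, z1⟩).1
      · exact image_eq_zero_of_notMem_tsupport fun h' => z1 (hb (c h')).1
    by_cases x2 : x ∈ Ω₂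
    · obtain ⟨ε, hε, hb⟩ := Metric.isOpen_iff.1 hΩ₂.op x x2
      exact ⟨ε, hε, fun ψ a _ c => h₂.solves ψ a (c.trans hb)⟩
    by_cases x3 : x ∈ closure Ω₂
    · exact h₂.supp x ⟨by rw [hΩ₂.op.frontier_eq]; exact ⟨x3, x2⟩, fun h' => x1 h'.1⟩
    · obtain ⟨ε, hε, hb⟩ := Metric.isOpen_iff.1 (isClosed_closure (s := Ω₂)).isOpen_compl x x3
      refine ⟨ε, hε, fun ψ _ _ c => setIntegral_eq_zero_of_forall_eq_zero fun z hz => ?_⟩
      have z1 : z ∉ tsupport ψ := fun h' => hb (c h') (subset_closure hz)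
      rw [image_eq_zero_of_notMem_tsupport z1,
        image_eq_zero_of_notMem_tsupport fun h' => z1 (tsupport_lap ψ h'), mul_zero, mul_zero,
        sub_zero]

end Pool.Agent.MP_71da5e_an.A
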