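import Pool.Agent.MP_71da5e_an.A.Defs

namespace Pool.Agent.MP_71da5e_an.A

open scoped ContDiff

/-- The local Cauchy data set on `Γ = U ∩ ∂Ω`, in a form that does not refer to the rest of `Ω`:
a solution `u` with boundary value supported in `Γ` gives the functional
`φ ↦ ⟨∂_ν u, φ⟩ - ⟨u, ∂_ν φ⟩` on the smooth functions `φ` supported in `U`. -/
def data {n : ℕ} (Ω U : Set (EuclideanSpace ℝ (Fin n))) (q : EuclideanSpace ℝ (Fin n) → ℂ) :
    Set ({φ : EuclideanSpace ℝ (Fin n) → ℂ // ContDiff ℝ ∞ φ ∧ tsupport φ ⊆ U} → ℂ) :=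
  {F | ∃ u, IsSol Ω (U ∩ frontier Ω) q u ∧ F = fun φ => green Ω q u φ.1}

end Pool.Agent.MP_71da5e_an.A
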