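import Pool.Agent.MP_71da5e_an.Two.Loc

/-! Pairs of solutions on two domains with the same Cauchy data: the a priori estimate. -/

namespace Pool.Agent.MP_71da5e_an.A

open MeasureTheory Metric Set Laplacian Filter Topology
open scoped ContDiff ENNReal RealInnerProductSpace NNReal

variable {n : ℕ}

/-- Solutions on two domains with the same Cauchy data in `U` and zero Dirichlet data off `B`. -/
structure Pr (Ω₁ Ω₂ U B : Set (E n)) (q₁ q₂ u₁ u₂ : E n → ℂ) : Prop where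
  l1 : L2 Ω₁ u₁
  l2 : L2 Ω₂ u₂
  ww : ∀ φ, Tst φ → tsupport φ ⊆ Ω₁ ∩ Ω₂ ∪ U → pair (fun x => u₁ x - u₂ x)
    (fun x => (q₁ x - q₂ x) * u₁ x + q₂ x * (u₁ x - u₂ x)) φ = 0
  dir : ∀ φ, Tst φ → (∀ x ∈ frontier Ω₂, φ x = 0) → Disjoint (tsupport φ) (closure B) →
    pair u₂ (fun x => q₂ x * u₂ x) φ = 0

/-- The mass of the difference in `S` is small. -/
def SmP (R : (E n → ℂ) → (E n → ℂ) → Prop) (Z S : Set (E n)) : Prop :=
  ∀ η : ℝ≥0, 0 < η → ∃ C : ℝ≥0, ∀ u₁ u₂, R u₁ u₂ → Q (ind S) (fun x => u₁ x - u₂ x) ≤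
    η * N2 (fun x => u₁ x - u₂ x) + C * Q (ind Z) u₁

section
variable {R : (E n → ℂ) → (E n → ℂ) → Prop} {Z S T : Set (E n)}

theorem smp_mono (h : S ⊆ T) (hT : SmP R Z T) : SmP R Z S := fun η hη =>
  (hT η hη).imp fun _ hC u₁ u₂ h1 => (Q_ind_mono h _).trans (hC u₁ u₂ h1)

theorem tw_union {w : E n → ℂ} (hm : MeasurableSet S) (hw : Measurable w) :
    Q (ind (S ∪ T)) w ≤ Q (ind S) w + Q (ind T) w := by
  refine Q_le_add (measurable_ind hm) hw fun x => ?_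
  rw [← add_mul]
  refine mul_le_mul_of_nonneg_right ?_ (sq_nonneg _)
  by_cases hx : x ∈ S ∪ T
  · rcases hx with hx | hx
    · exact (ind_le_one _ x).trans (by rw [ind_of_mem hx]; linarith [ind_nonneg T x])
    · exact (ind_le_one _ x).trans (by rw [ind_of_mem hx]; linarith [ind_nonneg S x])
  · rw [ind_of_notMem hx]
    exact add_nonneg (ind_nonneg _ x) (ind_nonneg _ x)

theorem smp_union (hR : ∀ u₁ u₂, R u₁ u₂ → Measurable fun x => u₁ x - u₂ x)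
    (hm : MeasurableSet S) (hS : SmP R Z S) (hT : SmP R Z T) : SmP R Z (S ∪ T) := by
  intro η hη
  obtain ⟨C, hC⟩ := hS (η / 2) (half_pos hη)
  obtain ⟨D, hD⟩ := hT (η / 2) (half_pos hη)
  refine ⟨C + D, fun u₁ u₂ h => ?_⟩
  refine ((tw_union hm (hR u₁ u₂ h)).trans (add_le_add (hC u₁ u₂ h) (hD u₁ u₂ h))).trans_eq ?_
  conv_rhs => rw [← add_halves η, ENNReal.coe_add, ENNReal.coe_add]
  ring

theorem smp_empty : SmP R Z ∅ := fun _ _ =>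
  ⟨0, fun _ _ _ => by
    rw [estw_zero fun x hx => absurd hx (notMem_empty x)]
    exact zero_le⟩

theorem smp_cpt (hR : ∀ u₁ u₂, R u₁ u₂ → Measurable fun x => u₁ x - u₂ x) (hK : IsCompact S)
    (h : ∀ x ∈ S, ∃ σ > 0, SmP R Z (ball x σ)) : SmP R Z S := by
  have h' : ∃ T, MeasurableSet T ∧ S ⊆ T ∧ SmP R Z T := by
    refine hK.induction_on (p := fun S => ∃ T, MeasurableSet T ∧ S ⊆ T ∧ SmP R Z T)
      ⟨_, MeasurableSet.empty, Subset.rfl, smp_empty⟩ ?_ ?_ ?_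
    · rintro S S' h ⟨T, h1, h2, h3⟩
      exact ⟨T, h1, h.trans h2, h3⟩
    · rintro S S' ⟨T, h1, h2, h3⟩ ⟨T', h1', h2', h3'⟩
      exact ⟨T ∪ T', h1.union h1', union_subset_union h2 h2', smp_union hR h1 h3 h3'⟩
    · intro y hy
      obtain ⟨σ, hσ, h1⟩ := h y hy
      exact ⟨ball y σ, mem_nhdsWithin_of_mem_nhds (ball_mem_nhds y hσ), _, measurableSet_ball,
        Subset.rfl, h1⟩
  obtain ⟨T, -, h1, h2⟩ := h'
  exact smp_mono h1 h2

theorem smp_step (h : ∀ η : ℝ≥0, 0 < η → ∃ (T : Set (E n)) (C : ℝ≥0), SmP R Z T ∧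
    ∀ u₁ u₂, R u₁ u₂ → Q (ind S) (fun x => u₁ x - u₂ x) ≤ η * N2 (fun x => u₁ x - u₂ x) +
      C * (Q (ind Z) u₁ + Q (ind T) fun x => u₁ x - u₂ x)) : SmP R Z S := by
  intro η hη
  obtain ⟨T, D, hT, hD⟩ := h (η / 2) (half_pos hη)
  obtain ⟨C, hC⟩ := hT (η / 2 / (D + 1)) (by positivity)
  refine ⟨D + D * C, fun u₁ u₂ hu => ?_⟩
  have h5 : D * (η / 2 / (D + 1)) ≤ η / 2 := by
    rw [mul_comm, div_mul_eq_mul_div, div_le_iff₀ (by positivity)]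
    gcongr
    exact le_self_add
  have h6 : (D : ℝ≥0∞) * (η / 2 / (D + 1) : ℝ≥0) ≤ (η / 2 : ℝ≥0) := by exact_mod_cast h5
  have h4 := hD u₁ u₂ hu
  have h7 := hC u₁ u₂ hu
  generalize N2 (fun x => u₁ x - u₂ x) = a at *
  generalize Q (ind Z) u₁ = g at *
  calc _ ≤ _ := h4
    _ ≤ (η / 2 : ℝ≥0) * a + D * (g + ((η / 2 / (D + 1) : ℝ≥0) * a + C * g)) := by gcongr
    _ = (η / 2 : ℝ≥0) * a + D * (η / 2 / (D + 1) : ℝ≥0) * a + (D + D * C) * g := by ring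
    _ ≤ (η / 2 : ℝ≥0) * a + (η / 2 : ℝ≥0) * a + (D + D * C) * g := by gcongr
    _ = _ := by
      rw [← add_mul, ← ENNReal.coe_add, add_halves]
      push_cast
      rfl

end

section
variable {Ω₁ Ω₂ U B G : Set (E n)} {A : ℝ} {q₁ q₂ : E n → ℂ}

theorem tw_split {S : Set (E n)} (hZ : MeasurableSet (Ω₁ \ G)) (hS : Disjoint S G)
    {u v v' : E n → ℂ} (hu : L2 Ω₁ u) (h : ∀ x, ‖v x‖ ≤ ‖u x‖ + ‖v' x‖) :
    Q (ind S) v ≤ 2 * Q (ind (Ω₁ \ G)) u + 2 * Q (ind S) v' := by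
  rw [← lyr_two, ← lyr_two]
  refine Q_le_add ((measurable_ind hZ).const_mul 2) hu.meas fun x => ?_
  by_cases hx : x ∈ S
  · have h1 := pow_le_pow_left₀ (norm_nonneg _) (h x) 2
    rw [ind_of_mem hx]
    by_cases hx' : x ∈ Ω₁
    · rw [ind_of_mem (show x ∈ Ω₁ \ G from ⟨hx', disjoint_left.1 hS hx⟩)]
      nlinarith [sq_nonneg (‖u x‖ - ‖v' x‖)]
    · rw [hu.zero x hx', norm_zero] at h1 ⊢
      nlinarith [sq_nonneg ‖v' x‖]
  · rw [ind_of_notMem hx]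
    have := ind_nonneg (Ω₁ \ G) x
    have : 0 ≤ 2 * ind (Ω₁ \ G) x * ‖u x‖ ^ 2 := by positivity
    linarith

theorem tw_a (u v : E n → ℂ) (x : E n) : ‖v x‖ ≤ ‖u x‖ + ‖u x - v x‖ := by
  simpa only [sub_sub_cancel] using norm_sub_le (u x) (u x - v x)

theorem tw_bd (h₁ : Bd A q₁) (h₂ : Bd A q₂) : Bd (2 * A) fun x => q₁ x - q₂ x :=
  ⟨h₁.1.sub h₂.1, fun x => (norm_sub_le _ _).trans (by linarith [h₁.2 x, h₂.2 x])⟩

theorem tw_src (h₁ : Bd A q₁) (h₂ : Bd A q₂) (hf : ∀ᵐ x, x ∈ G → x ∈ Ω₁ → q₁ x = q₂ x)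
    {u : E n → ℂ} (hu : L2 Ω₁ u) :
    (fun x => (q₁ x - q₂ x) * u x) =ᵐ[volume]
      (fun x => (Ω₁ \ G).indicator (fun x => q₁ x - q₂ x) x * u x) ∧
    N2 (fun x => (q₁ x - q₂ x) * u x) ≤ ((2 * A) ^ 2).toNNReal * Q (ind (Ω₁ \ G)) u := by
  have e : (fun x => (q₁ x - q₂ x) * u x) =ᵐ[volume]
      fun x => (Ω₁ \ G).indicator (fun x => q₁ x - q₂ x) x * u x := by
    filter_upwards [hf] with x hx
    by_cases h : x ∈ Ω₁ \ G
    · rw [indicator_of_mem h]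
    · rw [indicator_of_notMem h, zero_mul]
      by_cases h' : x ∈ Ω₁
      · rw [hx (by_contra fun h'' => h ⟨h', h''⟩) h', sub_self, zero_mul]
      · rw [hu.zero x h', mul_zero]
  refine ⟨e, ?_⟩
  rw [N2, Q_congr e, ← dataA_ind]
  refine dataA_mul (c := 2 * A) fun x => ?_
  by_cases h : x ∈ Ω₁ \ G
  · rw [indicator_of_mem h, indicator_of_mem h, norm_mul]
    exact mul_le_mul_of_nonneg_right ((tw_bd h₁ h₂).2 x) (norm_nonneg _)
  · simp [indicator_of_notMem h]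

theorem Pr.meas {u₁ u₂ : E n → ℂ} (h : Pr Ω₁ Ω₂ U B q₁ q₂ u₁ u₂) :
    Measurable fun x => u₁ x - u₂ x := h.l1.meas.sub h.l2.meas

theorem Pr.fin {u₁ u₂ : E n → ℂ} (h : Pr Ω₁ Ω₂ U B q₁ q₂ u₁ u₂) :
    N2 (fun x => u₁ x - u₂ x) ≠ ⊤ :=
  dataA_two' h.l1.meas (fun _ => norm_sub_le _ _) h.l1.fin h.l2.fin

theorem Pr.wp (h₁ : Bd A q₁) (h₂ : Bd A q₂) {u₁ u₂ : E n → ℂ} (h : Pr Ω₁ Ω₂ U B q₁ q₂ u₁ u₂) :
    WP (Ω₁ ∩ Ω₂ ∪ U) (fun x => u₁ x - u₂ x)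
      fun x => (q₁ x - q₂ x) * u₁ x + q₂ x * (u₁ x - u₂ x) :=
  ⟨h.l1.wl2.sub h.l2.wl2, (h.l1.wl2.mul (tw_bd h₁ h₂).1 (tw_bd h₁ h₂).2).add
    ((h.l1.wl2.sub h.l2.wl2).mul h₂.1 h₂.2), h.ww⟩

/-- Propagation in a ball where the difference solves the equation. -/
theorem smp_ball₁ (h₁ : Bd A q₁) (h₂ : Bd A q₂) (hf : ∀ᵐ x, x ∈ G → x ∈ Ω₁ → q₁ x = q₂ x)
    {y y' : E n} {r σ : ℝ} (hr : 0 < r) (hb : ball y r ⊆ Ω₁ ∩ Ω₂ ∪ U) (hy : y' ∈ ball y r)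
    (hσ : 0 < σ) (h : SmP (Pr Ω₁ Ω₂ U B q₁ q₂) (Ω₁ \ G) (ball y' σ)) :
    SmP (Pr Ω₁ Ω₂ U B q₁ q₂) (Ω₁ \ G) (ball y (r / 2)) := by
  refine smp_mono ball_subset_closedBall (smp_step fun η hη => ?_)
  obtain ⟨C, hC⟩ := chain_cpt (A := A) isOpen_ball (convex_ball y r).isPreconnected hy hσ
    (isCompact_closedBall y (r / 2)) (closedBall_subset_ball (half_lt_self hr)) η hη
  refine ⟨_, C * (((2 * A) ^ 2).toNNReal + 1), h, fun u₁ u₂ hu => ?_⟩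
  refine (hC q₂ _ _ h₂ (hu.l1.wl2.mul (tw_bd h₁ h₂).1 (tw_bd h₁ h₂).2)
    (WP.mono' (hu.wp h₁ h₂) hb)).trans ?_
  have a1 := (Q_ind_le (ball y r) _).trans (tw_src h₁ h₂ hf hu.l1).2
  have a2 := Q_ind_le (ball y r) fun x => u₁ x - u₂ x
  generalize ((2 * A) ^ 2).toNNReal = a at *
  generalize Q (ind (Ω₁ \ G)) u₁ = N at *
  generalize Q (ind (ball y' σ)) (fun x => u₁ x - u₂ x) = X at *
  calc _ ≤ η * N2 (fun x => u₁ x - u₂ x) + C * (a * N + X) := by gcongr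
    _ ≤ η * N2 (fun x => u₁ x - u₂ x) + (C * (a * N + X) + C * (N + a * X)) := by
      gcongr
      exact le_self_add
    _ = _ := by
      push_cast
      ring

/-- Propagation in a ball of the second domain away from `G` and `B`. -/
theorem smp_ball₂ (hΩ : IsOpen Ω₂) (hZ : MeasurableSet (Ω₁ \ G)) (h₂ : Bd A q₂)
    {y y' : E n} {r σ : ℝ} (hr : 0 < r) (hb : ball y r ⊆ Ω₂) (hG : Disjoint (ball y r) G)
    (hB : Disjoint (ball y r) (closure B)) (hy : y' ∈ ball y r)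
    (hσ : 0 < σ) (h : SmP (Pr Ω₁ Ω₂ U B q₁ q₂) (Ω₁ \ G) (ball y' σ)) :
    SmP (Pr Ω₁ Ω₂ U B q₁ q₂) (Ω₁ \ G) (ball y (r / 2)) := by
  obtain ⟨τ, hτ, hτb⟩ := Metric.isOpen_iff.1 isOpen_ball y' hy
  have hm : 0 < min σ τ := lt_min hσ hτ
  refine smp_mono ball_subset_closedBall (smp_step fun η hη => ?_)
  have hK : closedBall y (r / 2) ⊆ ball y r := closedBall_subset_ball (half_lt_self hr)
  obtain ⟨C, hC⟩ := chain_cpt (A := A) isOpen_ball (convex_ball y r).isPreconnected hy hm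
    (isCompact_closedBall y (r / 2)) hK (η / 4) (by positivity)
  refine ⟨_, 2 + η + 4 * C, smp_mono (ball_subset_ball (min_le_left σ τ)) h, fun u₁ u₂ hu => ?_⟩
  have z : WL2 fun _ : E n => (0 : ℂ) := ⟨measurable_const, by simp [Q]⟩
  have a0 := hC q₂ u₂ (fun _ => 0) h₂ z ⟨hu.l2.wl2, z.add (hu.l2.wl2.mul h₂.1 h₂.2),
    fun φ hφ hs => by
      simp only [zero_add]
      exact hu.dir φ hφ (fun x hx => image_eq_zero_of_notMem_tsupport fun h' =>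
        (hΩ.frontier_eq ▸ hx).2 (hb (hs h'))) (hB.mono_left hs)⟩
  rw [estw_zero (w := fun _ => (0 : ℂ)) fun _ _ => rfl, zero_add] at a0
  have a1 := tw_split hZ (hG.mono_left hK) hu.l1 (v := fun x => u₁ x - u₂ x) (v' := u₂)
    fun x => norm_sub_le _ _
  have a2 := tw_split hZ hG hu.l1 (tw_a u₁ u₂)
  have a3 := tw_split hZ (hG.mono_left ((ball_subset_ball (min_le_right σ τ)).trans hτb)) hu.l1
    (tw_a u₁ u₂)
  have a4 := Q_ind_le (ball y r) fun x => u₁ x - u₂ x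
  have e : (η : ℝ≥0∞) = 4 * (η / 4 : ℝ≥0) := by
    rw [← ENNReal.coe_ofNat, ← ENNReal.coe_mul, mul_div_cancel₀ _ (by norm_num)]
  push_cast
  rw [e]
  generalize ((η / 4 : ℝ≥0) : ℝ≥0∞) = a at *
  generalize Q (ind (Ω₁ \ G)) u₁ = N at *
  generalize Q (ind (ball y' (min σ τ))) (fun x => u₁ x - u₂ x) = X at *
  generalize N2 (fun x => u₁ x - u₂ x) = T at *
  calc _ ≤ 2 * N + 2 * (a * (2 * N + 2 * T) + C * (2 * N + 2 * X)) := by
        refine a1.trans ?_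
        gcongr
        refine a0.trans ?_
        gcongr
        refine a2.trans ?_
        gcongr
    _ ≤ _ + (2 + 4 * a) * X := le_self_add
    _ = _ := by ring

/-- The boundary layer of the second domain away from `G` and `B`. -/
theorem smp_layer (hΩ : Dom Ω₂) (hZ : MeasurableSet (Ω₁ \ G)) (h₂ : Bd A q₂)
    (hK : ∀ K, IsCompact K → K ⊆ Ω₂ → SmP (Pr Ω₁ Ω₂ U B q₁ q₂) (Ω₁ \ G) K)
    {p : E n} (hp : p ∈ frontier Ω₂) {ε : ℝ} (hε : 0 < ε) (hG : Disjoint (ball p ε) G)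
    (hB : Disjoint (ball p ε) (closure B)) :
    ∃ σ > 0, SmP (Pr Ω₁ Ω₂ U B q₁ q₂) (Ω₁ \ G) (ball p σ) := by
  obtain ⟨r, hr, hrε, h⟩ := layer_loc hΩ hp hε
  refine ⟨r, hr, smp_step fun η hη => ?_⟩
  set a : ℝ≥0 := (A ^ 2).toNNReal with ha
  obtain ⟨K, C, k1, k2, k3, hC⟩ := h (η / (4 * (1 + a)) : ℝ≥0) (NNReal.coe_pos.2 (by positivity))
  refine ⟨K, 2 + η + 4 * C.toNNReal, hK K k1 k2, fun u₁ u₂ hu => ?_⟩
  have ind2 : ∀ {w : E n → ℂ}, L2 Ω₂ w → L2 Ω₂ ((ball p ε).indicator w) := fun hw =>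
    ⟨hw.meas.indicator measurableSet_ball, by
      rw [dataA_ind]
      exact ne_top_of_le_ne_top hw.fin (Q_ind_le _ _),
      fun x hx => indicator_apply_eq_zero.2 fun _ => hw.zero x hx⟩
  have a0 := hC _ _ (ind2 hu.l2) (ind2 (hypc_bd h₂ hu.l2)) fun ψ hψ h0 hs => by
    rw [← hu.dir ψ hψ h0 (hB.mono_left hs)]
    refine integral_congr_ae (Eventually.of_forall fun x => ?_)
    by_cases hx : x ∈ ball p ε
    · simp only [indicator_of_mem hx]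
    · have z1 : ψ x = 0 := image_eq_zero_of_notMem_tsupport fun h' => hx (hs h')
      have z2 : Δ ψ x = 0 :=
        image_eq_zero_of_notMem_tsupport fun h' => hx (hs (tsupport_lap ψ h'))
      simp only [z1, z2, mul_zero]
  have b0 : ∀ S : Set (E n), S ⊆ ball p ε →
      Q (ind S) ((ball p ε).indicator u₂) = Q (ind S) u₂ := fun S hS =>
    lintegral_congr fun x => by
      by_cases hx : x ∈ S
      · rw [indicator_of_mem (hS hx)]
      · simp [ind_of_notMem hx]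
  have b1 : N2 ((ball p ε).indicator fun x => q₂ x * u₂ x) ≤ a * Q (ind (ball p ε)) u₂ := by
    rw [← dataA_ind]
    refine dataA_mul (c := A) fun x => ?_
    by_cases hx : x ∈ ball p ε
    · rw [indicator_of_mem hx, indicator_of_mem hx, norm_mul]
      exact mul_le_mul_of_nonneg_right (h₂.2 x) (norm_nonneg _)
    · simp [indicator_of_notMem hx]
  rw [b0 _ (ball_subset_ball hrε), b0 _ k3, dataA_ind, ENNReal.ofReal_coe_nnreal] at a0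
  have a1 := tw_split hZ (hG.mono_left (ball_subset_ball hrε)) hu.l1
    (v := fun x => u₁ x - u₂ x) (v' := u₂) fun x => norm_sub_le _ _
  have a2 := tw_split hZ hG hu.l1 (tw_a u₁ u₂)
  have a3 := tw_split hZ (hG.mono_left k3) hu.l1 (tw_a u₁ u₂)
  have a4 := Q_ind_le (ball p ε) fun x => u₁ x - u₂ x
  have e : (η : ℝ≥0∞) = (η / (4 * (1 + a)) : ℝ≥0) * (4 * (1 + a)) := by
    have : η = η / (4 * (1 + a)) * (4 * (1 + a)) := (div_mul_cancel₀ _ (by positivity)).symm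
    exact_mod_cast this
  push_cast
  rw [e]
  change _ ≤ _ + (C.toNNReal : ℝ≥0∞) * _ at a0
  generalize ((η / (4 * (1 + a)) : ℝ≥0) : ℝ≥0∞) = b at *
  generalize (C.toNNReal : ℝ≥0∞) = c at *
  generalize Q (ind (Ω₁ \ G)) u₁ = N at *
  generalize Q (ind K) (fun x => u₁ x - u₂ x) = X at *
  generalize N2 (fun x => u₁ x - u₂ x) = T at *
  have a5 : Q (ind (ball p ε)) u₂ ≤ 2 * N + 2 * T := a2.trans (by gcongr)
  calc _ ≤ 2 * N + 2 * (b * ((2 * N + 2 * T) + a * (2 * N + 2 * T)) + c * (2 * N + 2 * X)) := by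
        refine a1.trans ?_
        gcongr
        refine a0.trans ?_
        gcongr
        refine b1.trans ?_
        gcongr
    _ ≤ _ + (2 + b * (4 * (1 + a))) * X := le_self_add
    _ = _ := by ring

/-- The a priori estimate for pairs. -/
theorem two_est (hΩ₁ : IsOpen Ω₁) (hΩ₂ : Dom Ω₂) (hU : IsOpen U) (hUΩ : Ω₁ ∩ U ⊆ Ω₂)
    (hBU : closure B ⊆ U) (hc : IsPreconnected (Ω₂ ∪ B)) {y₀ : E n} (hy : y₀ ∈ B) {s : ℝ}
    (hs : 0 < s) (hd₁ : Disjoint (ball y₀ s) Ω₁) (hd₂ : Disjoint (ball y₀ s) Ω₂)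
    (hG : MeasurableSet G) (hGW : closure G ⊆ Ω₁ ∩ Ω₂ ∪ U) (h₁ : Bd A q₁) (h₂ : Bd A q₂)
    (hf : ∀ᵐ x, x ∈ G → x ∈ Ω₁ → q₁ x = q₂ x) :
    ∃ C : ℝ≥0, ∀ u₁ u₂, Pr Ω₁ Ω₂ U B q₁ q₂ u₁ u₂ →
      N2 (fun x => u₁ x - u₂ x) ≤ C * Q (ind (Ω₁ \ G)) u₁ := by
  have hZ : MeasurableSet (Ω₁ \ G) := hΩ₁.measurableSet.diff hG
  have hW : IsOpen (Ω₁ ∩ Ω₂ ∪ U) := (hΩ₁.inter hΩ₂.op).union hU
  set Gd : Set (E n) := {y | ∃ σ > 0, SmP (Pr Ω₁ Ω₂ U B q₁ q₂) (Ω₁ \ G) (ball y σ)} with hGd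
  have s1 : ∀ y ∈ closure Gd, y ∈ Ω₁ ∩ Ω₂ ∪ U → y ∈ Gd := by
    intro y h1 h2
    obtain ⟨r, hr, hb⟩ := Metric.isOpen_iff.1 hW y h2
    obtain ⟨y', ⟨σ, hσ, hy'⟩, hd⟩ := Metric.mem_closure_iff.1 h1 r hr
    exact ⟨r / 2, half_pos hr, smp_ball₁ h₁ h₂ hf hr hb (mem_ball'.2 hd) hσ hy'⟩
  have far : ∀ y, y ∉ Ω₁ ∩ Ω₂ ∪ U → ∃ ε > 0, Disjoint (ball y ε) G ∧
      Disjoint (ball y ε) (closure B) := by
    intro y h2
    obtain ⟨ε, hε, hb⟩ := Metric.isOpen_iff.1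
      ((isClosed_closure (s := G)).union (isClosed_closure (s := B))).isOpen_compl y
      fun h => h.elim (fun h => h2 (hGW h)) fun h => h2 (Or.inr (hBU h))
    exact ⟨ε, hε, disjoint_left.2 fun z hz hz' => hb hz (Or.inl (subset_closure hz')),
      disjoint_left.2 fun z hz hz' => hb hz (Or.inr hz')⟩
  have s2 : Ω₂ ∪ B ⊆ Gd := by
    refine hc.subset_of_closure_inter_subset ?_ ⟨y₀, Or.inr hy, s, hs, fun η _ => ⟨0, ?_⟩⟩ ?_
    · refine Metric.isOpen_iff.2 ?_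
      rintro y ⟨σ, hσ, h⟩
      refine ⟨σ / 2, by positivity, fun y' hy' => ⟨σ / 2, by positivity, smp_mono ?_ h⟩⟩
      exact ball_subset_ball' (by have := mem_ball.1 hy'; linarith)
    · intro u₁ u₂ hu
      rw [estw_zero fun x hx => by
        rw [hu.l1.zero x (disjoint_left.1 hd₁ hx), hu.l2.zero x (disjoint_left.1 hd₂ hx), sub_zero]]
      exact zero_le
    · rintro y ⟨h1, h2⟩
      by_cases h3 : y ∈ Ω₁ ∩ Ω₂ ∪ U
      · exact s1 y h1 h3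
      have h4 : y ∈ Ω₂ := h2.resolve_right fun h => h3 (Or.inr (hBU (subset_closure h)))
      obtain ⟨ε, hε, d1, d2⟩ := far y h3
      obtain ⟨r, hr, hb⟩ := Metric.isOpen_iff.1 hΩ₂.op y h4
      have hm : 0 < min ε r := lt_min hε hr
      obtain ⟨y', ⟨σ, hσ, hy'⟩, hd⟩ := Metric.mem_closure_iff.1 h1 _ hm
      exact ⟨_, half_pos hm, smp_ball₂ hΩ₂.op hZ h₂ hm
        ((ball_subset_ball (min_le_right _ _)).trans hb)
        (d1.mono_left (ball_subset_ball (min_le_left _ _)))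
        (d2.mono_left (ball_subset_ball (min_le_left _ _))) (mem_ball'.2 hd) hσ hy'⟩
  have s3 : SmP (Pr Ω₁ Ω₂ U B q₁ q₂) (Ω₁ \ G) (closure Ω₂) := by
    refine smp_cpt (fun _ _ h => h.meas) hΩ₂.bd.isCompact_closure fun x hx => ?_
    by_cases h3 : x ∈ Ω₁ ∩ Ω₂ ∪ U
    · exact s1 x (closure_mono (subset_union_left.trans s2) hx) h3
    by_cases h4 : x ∈ Ω₂
    · exact s2 (Or.inl h4)
    obtain ⟨ε, hε, d1, d2⟩ := far x h3
    exact smp_layer hΩ₂ hZ h₂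
      (fun K k1 k2 => smp_cpt (fun _ _ h => h.meas) k1 fun z hz => s2 (Or.inl (k2 hz)))
      (by rw [hΩ₂.op.frontier_eq]; exact ⟨hx, h4⟩) hε d1 d2
  obtain ⟨C, hC⟩ := s3 (1 / 2) (by positivity)
  refine ⟨2 * (C + 1), fun u₁ u₂ hu => ?_⟩
  have h1 : N2 (fun x => u₁ x - u₂ x) ≤
      Q (ind (closure Ω₂)) (fun x => u₁ x - u₂ x) + Q (ind (Ω₁ \ G)) u₁ := by
    refine Q_le_add (measurable_ind isClosed_closure.measurableSet) hu.meas fun x => ?_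
    have n1 := ind_nonneg (Ω₁ \ G) x
    by_cases hx : x ∈ Ω₂
    · rw [ind_of_mem (subset_closure hx)]
      exact le_add_of_nonneg_right (by positivity)
    · have n2 := ind_nonneg (closure Ω₂) x
      rw [hu.l2.zero x hx, sub_zero]
      by_cases hx' : x ∈ Ω₁
      · rw [ind_of_mem (show x ∈ Ω₁ \ G from ⟨hx', fun h => hx
          ((hGW (subset_closure h)).elim (fun h => h.2) fun h => hUΩ ⟨hx', h⟩)⟩)]
        exact le_add_of_nonneg_left (by positivity)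
      · simp [hu.l1.zero x hx']
  have h2 := h1.trans (add_le_add_left (hC u₁ u₂ hu) _)
  have h3 : Q (ind (Ω₁ \ G)) u₁ ≠ ⊤ := ne_top_of_le_ne_top hu.l1.fin (Q_ind_le _ _)
  lift N2 (fun x => u₁ x - u₂ x) to ℝ≥0 using hu.fin with a
  lift Q (ind (Ω₁ \ G)) u₁ to ℝ≥0 using h3 with b
  rw [← ENNReal.coe_mul, ← ENNReal.coe_mul, ← ENNReal.coe_add, ← ENNReal.coe_add,
    ENNReal.coe_le_coe, ← NNReal.coe_le_coe] at h2
  rw [← ENNReal.coe_mul, ENNReal.coe_le_coe, ← NNReal.coe_le_coe]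
  push_cast at h2 ⊢
  linarith

end

end Pool.Agent.MP_71da5e_an.A
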