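import Pool.Agent.Mg.F71da5ea.Gd30c6a

/-! The boundary layer estimate under a local hypothesis. -/

namespace Pool.Agent.MP_71da5e_an.A

open MeasureTheory Metric Set Laplacian Filter Topology
open scoped ContDiff ENNReal RealInnerProductSpace

variable {n : ℕ}

/-- The estimate in a chart, tested against an odd function. -/
theorem layer_test_loc {Ω : Set (E n)} {p ν : E n} {δ r M : ℝ} {Ψ : E n ≃ₜ E n}
    (hc : Chart Ω p δ r M ν Ψ) (hδ : δ ≤ 1) (hd : ∀ x, 1 / 2 ≤ |(fderiv ℝ Ψ x).det|)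
    {χ : E n → ℝ} (hχ : ContDiff ℝ ∞ χ) (hχs : tsupport χ ⊆ closedBall p (r / 2))
    (hχ1 : ∀ x, |χ x| ≤ 1) : ∃ C : ℝ, 0 ≤ C ∧ ∀ (t : ℝ) (w F φ : E n → ℂ), 0 < t → t ≤ 1 →
      L2 Ω w → L2 Ω F → (∀ ψ, Tst ψ → (∀ x ∈ frontier Ω, ψ x = 0) →
        tsupport ψ ⊆ closedBall p (r / 2) → pair w F ψ = 0) →
      Tst φ → IsOdd ν φ → ‖∫ x, χ x * w x * Lt ν t φ (Ψ x)‖ₑ ^ 2 ≤
        (ENNReal.ofReal (10 ^ 7 * n ^ 2 * δ ^ 2) * N2 (fun x => χ x * w x) +
          ENNReal.ofReal (C * t ^ 2) * (N2 w + N2 F) +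
          ENNReal.ofReal (10 ^ 7) * Q (ind (closedBall p (r / 2) ∩ {x | t ≤ ⟪Ψ x, ν⟫})) w) *
          N2 (Lt ν t φ) := by
  have hχc : HasCompactSupport χ :=
    (isCompact_closedBall _ _).of_isClosed_subset (isClosed_tsupport _) hχs
  obtain ⟨K₁, hK₁⟩ := (hχ.continuous_fderiv (by simp)).bounded_above_of_compact_support
    (hχc.fderiv ℝ)
  obtain ⟨K, hK⟩ := (contDiff_lap hχ).continuous.bounded_above_of_compact_support
    (IsCompact.of_isClosed_subset hχc (isClosed_tsupport _) (tsupport_lap χ))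
  have hδ0 : 0 ≤ δ := (norm_nonneg _).trans (hc.d1 0)
  have hM : 0 ≤ M := (ContinuousLinearMap.opNorm_nonneg _).trans (hc.d2 0)
  have hK₁0 : 0 ≤ K₁ := (norm_nonneg _).trans (hK₁ 0)
  have hball : ∀ x, χ x ≠ 0 → x ∈ closedBall p (r / 2) ∧ x ∈ ball p r := fun x h =>
    ⟨hχs (subset_tsupport _ h), closedBall_subset_ball (half_lt_self hc.r_pos)
      (hχs (subset_tsupport _ h))⟩
  refine ⟨10 ^ 5 * ((n * M + 4 * K₁) ^ 2 + 3 * K ^ 2 + 3), by positivity,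
    fun t w F φ ht ht1 hw hF hp hφ ho => ?_⟩
  by_cases hi : Integrable fun x => χ x * w x * Lt ν t φ (Ψ x)
  swap
  · rw [integral_undef hi]
    simp
  set S := closedBall p (r / 2) ∩ {x | t ≤ ⟪Ψ x, ν⟫}
  have hS : MeasurableSet S := measurableSet_closedBall.inter
    (isClosed_le continuous_const (by fun_prop)).measurableSet
  have hu : ContDiff ℝ ∞ fun y => φ (Ψ y) := hφ.1.comp hc.smooth
  have hψ : Tst fun y => (χ y : ℂ) * φ (Ψ y) :=
    ⟨(Complex.ofRealCLM.contDiff.comp hχ).mul hu,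
      (hχc.comp_left (g := fun s : ℝ => (s : ℂ)) Complex.ofReal_zero).mul_right⟩
  have h0 := hp _ hψ (fun x hx => by
    rcases eq_or_ne (χ x) 0 with h | h
    · simp [h]
    · have h1 := ho (Ψ x)
      rw [rf_of_mem_Pl (hc.fr x (hball x h).2 hx)] at h1
      rw [self_eq_neg.1 h1, mul_zero])
    (closure_minimal (fun x hx => (hball x fun h => hx (by simp [h])).1) isClosed_closedBall)
  have hg := (hF.wl2.integrable_mul hψ.1.continuous hψ.2).sub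
    (hw.wl2.integrable_mul hψ.lap.1.continuous hψ.lap.2)
  have e := (integral_add hi hg).trans ((congrArg _ h0).trans (add_zero _))
  have mw := hw.meas
  have mF := hF.meas
  have mχ := hχ.continuous.measurable
  have mS := measurable_ind hS
  have c0 := hφ.1.continuous
  have c1 := hφ.1.continuous_fderiv (by simp)
  have c2 : Continuous fun x => ‖fderiv ℝ (fderiv ℝ φ) (Ψ x)‖ :=
    (((hφ.1.fderiv_right (m := ∞) (by simp)).continuous_fderiv (by simp)).comp Ψ.continuous).norm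
  rw [← e, ← layt_A (by positivity) (by positivity) (by positivity) (by fun_prop) mw mF S]
  refine (layt_cs (B := fun x => (10 ^ 5)⁻¹ * ((t ^ 4)⁻¹ * ‖φ (Ψ x)‖ ^ 2 + (t ^ 2)⁻¹ *
      ‖fderiv ℝ φ (Ψ x)‖ ^ 2 + ‖fderiv ℝ (fderiv ℝ φ) (Ψ x)‖ ^ 2)) (by fun_prop)
    (continuous_const.mul (Continuous.add (by fun_prop) (c2.pow 2))).measurable
    (fun x => by have := ind_nonneg S x; positivity) (fun x => by positivity) fun x => ?_).trans
    (mul_le_mul_right ((chart_lintegral_le hc.smooth hd fun y => ENNReal.ofReal ((10 ^ 5)⁻¹ *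
      ((t ^ 4)⁻¹ * ‖φ y‖ ^ 2 + (t ^ 2)⁻¹ * ‖fderiv ℝ φ y‖ ^ 2 +
        ‖fderiv ℝ (fderiv ℝ φ) y‖ ^ 2))).trans (layt_B hc.unit ht hφ)) _)
  rw [mul_assoc (10 ^ 7 : ℝ), ← mul_pow]
  refine layt_pt ht ht1 (ind_nonneg S x) (ind_le_one S x) (norm_nonneg _) ?_
  have h1 := chart_lap hc.smooth (hc.d1 x) (hc.d2 x) hφ.1
  have h2 := chart_fderiv_le hc.smooth (hc.d1 x) hφ.1
  have h3 : ‖fderiv ℝ (fun y => φ (Ψ y)) x (gradient χ x)‖ ≤ 2 * ‖fderiv ℝ φ (Ψ x)‖ * K₁ := by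
    refine (ContinuousLinearMap.le_opNorm _ _).trans (mul_le_mul (h2.trans ?_) ?_ (norm_nonneg _)
      (by positivity))
    · exact mul_le_mul_of_nonneg_right (by linarith) (norm_nonneg _)
    · rw [norm_gradient_eq]
      exact hK₁ x
  have h4 : ‖(χ x : ℂ) * w x * Vt ν t (Ψ x)‖ ≤ (t ^ 2)⁻¹ * (ind S x * ‖w x‖) := by
    have := ind_nonneg S x
    by_cases h : (χ x : ℂ) * w x * Vt ν t (Ψ x) = 0
    · rw [h, norm_zero]
      positivity
    · simp only [mul_eq_zero, not_or, Complex.ofReal_eq_zero] at h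
      have hx : x ∈ Ω := by_contra fun h' => h.1.2 (hw.zero x h')
      have h5 : 0 < ⟪Ψ x, ν⟫ := (hc.mem x (hball x h.1.1).2).1 hx
      have h6 : t ≤ ⟪Ψ x, ν⟫ := by
        by_contra h'
        exact h.2 (if_neg (by rwa [abs_of_pos h5]))
      rw [ind_of_mem (show x ∈ S from ⟨(hball x h.1.1).1, h6⟩), norm_mul, norm_mul,
        Complex.norm_real, Complex.norm_real, Real.norm_of_nonneg (Vt_nonneg _ _ _), mul_comm]
      exact mul_le_mul (Vt_le _ _ _) (mul_le_mul_of_nonneg_right (hχ1 x) (norm_nonneg _))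
        (by positivity) (by positivity)
  have h5 : ‖(χ x : ℂ)‖ ≤ 1 := by
    rw [Complex.norm_real]
    exact hχ1 x
  have h6 : ‖(χ x : ℂ) * w x‖ ≤ ‖w x‖ := by
    rw [norm_mul]
    exact mul_le_of_le_one_left (norm_nonneg _) h5
  have h7 : ‖((Δ χ x : ℝ) : ℂ)‖ ≤ K := by
    rw [Complex.norm_real]
    exact hK x
  have e1 : χ x * w x * Lt ν t φ (Ψ x) + (F x * (χ x * φ (Ψ x)) -
      w x * Δ (fun y => (χ y : ℂ) * φ (Ψ y)) x) =
      F x * (χ x * φ (Ψ x)) - χ x * w x * Vt ν t (Ψ x) * φ (Ψ x) -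
        w x * ((Δ χ x : ℝ) * φ (Ψ x)) -
        w x * (2 * fderiv ℝ (fun y => φ (Ψ y)) x (gradient χ x)) -
        χ x * w x * (Δ (fun y => φ (Ψ y)) x - Δ φ (Ψ x)) := by
    rw [lap_smul (hχ.of_le scut_two).contDiffAt (hu.of_le scut_two).contDiffAt, Lt]
    ring
  have b1 : ‖F x * (χ x * φ (Ψ x))‖ ≤ ‖F x‖ * ‖φ (Ψ x)‖ := by
    rw [norm_mul, norm_mul]
    exact mul_le_mul_of_nonneg_left (mul_le_of_le_one_left (norm_nonneg _) h5) (norm_nonneg _)
  have b2 : ‖χ x * w x * Vt ν t (Ψ x) * φ (Ψ x)‖ ≤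
      (t ^ 2)⁻¹ * (ind S x * ‖w x‖) * ‖φ (Ψ x)‖ := by
    rw [norm_mul]
    exact mul_le_mul_of_nonneg_right h4 (norm_nonneg _)
  have b3 : ‖w x * ((Δ χ x : ℝ) * φ (Ψ x))‖ ≤ ‖w x‖ * (K * ‖φ (Ψ x)‖) := by
    rw [norm_mul, norm_mul]
    gcongr
  have b4 : ‖w x * (2 * fderiv ℝ (fun y => φ (Ψ y)) x (gradient χ x))‖ ≤
      ‖w x‖ * (2 * (2 * ‖fderiv ℝ φ (Ψ x)‖ * K₁)) := by
    rw [norm_mul, norm_mul, Complex.norm_two]
    gcongr
  have b5 : ‖χ x * w x * (Δ (fun y => φ (Ψ y)) x - Δ φ (Ψ x))‖ ≤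
      ‖(χ x : ℂ) * w x‖ * (n * (3 * δ) * ‖fderiv ℝ (fderiv ℝ φ) (Ψ x)‖) +
        ‖w x‖ * (n * M * ‖fderiv ℝ φ (Ψ x)‖) := by
    rw [norm_mul]
    refine (mul_le_mul_of_nonneg_left h1 (norm_nonneg _)).trans ?_
    rw [mul_add]
    gcongr
    nlinarith
  refine (le_of_eq (congrArg norm e1)).trans ((norm_sub_le_of_le (norm_sub_le_of_le
    (norm_sub_le_of_le (norm_sub_le_of_le b1 b2) b3) b4) b5).trans (le_of_eq ?_))
  ring

/-- A very weak solution with zero Dirichlet data has little mass near the boundary. -/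
theorem layer_loc {Ω : Set (E n)} (hΩ : Dom Ω) {p : E n} (hp : p ∈ frontier Ω) {ε : ℝ}
    (hε : 0 < ε) :
    ∃ r : ℝ, 0 < r ∧ r ≤ ε ∧ ∀ η : ℝ, 0 < η → ∃ (K : Set (E n)) (C : ℝ), IsCompact K ∧
      K ⊆ Ω ∧ K ⊆ ball p ε ∧ ∀ w F : E n → ℂ, L2 Ω w → L2 Ω F →
        (∀ ψ, Tst ψ → (∀ x ∈ frontier Ω, ψ x = 0) → tsupport ψ ⊆ ball p ε → pair w F ψ = 0) →
        Q (ind (ball p r)) w ≤
          ENNReal.ofReal η * (N2 w + N2 F) + ENNReal.ofReal C * Q (ind K) w := by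
  obtain ⟨δ₀, hδ₀, hδ₁, hdet⟩ := chart_det n
  obtain ⟨δ, hδ, hδ', hδa⟩ := lyr_delta n hδ₀
  obtain ⟨ρ, hρ⟩ := hΩ.sm p hp
  obtain ⟨r₀, M, ν, Ψ, hc₀⟩ := exists_chart hΩ.op hp hρ hδ
  obtain ⟨r, hrε, hc⟩ : ∃ r, r ≤ ε ∧ Chart Ω p δ r M ν Ψ :=
    ⟨min r₀ ε, min_le_right _ _, lt_min hc₀.r_pos hε, hc₀.unit, hc₀.smooth, hc₀.d1, hc₀.d2,
      fun x hx => hc₀.mem x (ball_subset_ball (min_le_left _ _) hx),
      fun x hx => hc₀.fr x (ball_subset_ball (min_le_left _ _) hx)⟩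
  have hr := hc.r_pos
  have hd := fun x => hdet _ ((hc.d1 x).trans hδ')
  let χ : ContDiffBump p := ⟨r / 4, r / 2, by positivity, by linarith⟩
  have hχ1 : ∀ x, |χ x| ≤ 1 := fun x => by
    rw [abs_of_nonneg χ.nonneg]
    exact χ.le_one
  obtain ⟨C, hC, hT⟩ := layer_test_loc hc (hδ'.trans hδ₁) (fun x => (hd x).1) χ.contDiff
    χ.tsupport_eq.subset hχ1
  refine ⟨r / 4, by positivity, by linarith, fun η hη => ?_⟩
  obtain ⟨t, ht, ht1, htη⟩ := lyr_t hC hη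
  have hb : closedBall p (r / 2) ⊆ ball p r := closedBall_subset_ball (by linarith)
  have hb' : closedBall p (r / 2) ⊆ ball p ε := hb.trans (ball_subset_ball hrε)
  refine ⟨closedBall p (r / 2) ∩ {x | t ≤ ⟪Ψ x, ν⟫}, 8 * 10 ^ 7, ?_, fun x hx => ?_,
    fun x hx => hb' hx.1, fun w F hw hF hweak => ?_⟩
  · exact (isCompact_closedBall _ _).inter_right
      (isClosed_le continuous_const (Ψ.continuous.inner continuous_const))
  · exact (hc.mem x (hb hx.1)).2 (ht.trans_le hx.2)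
  have hle : N2 (fun x => χ x * w x) ≤ N2 w := Q_mono fun x => by
    rw [norm_mul, mul_pow, Complex.norm_real, Real.norm_eq_abs]
    have h1 : |χ x| ^ 2 ≤ 1 := pow_le_one₀ (abs_nonneg _) (hχ1 x)
    nlinarith [sq_nonneg ‖w x‖]
  have hfin := ne_top_of_le_ne_top hw.fin hle
  have hm : Measurable fun x => (χ x : ℂ) * w x :=
    (Complex.continuous_ofReal.comp χ.continuous).measurable.mul hw.meas
  have h0 : ∀ x, Ψ x ∉ Hs ν → (χ x : ℂ) * w x = 0 := fun x hx => by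
    by_cases hx' : x ∈ ball p r
    · rw [hw.zero x fun h => hx ((hc.mem x hx').1 h), mul_zero]
    · rw [χ.zero_of_le_dist (not_lt.1 fun h => hx' (hb (mem_closedBall.2 h.le))),
        Complex.ofReal_zero, zero_mul]
  have h1 := lyr_dual hc.unit ht hc.smooth (fun x => (hd x).1) (fun x => (hd x).2) hm hfin h0
    fun φ hφ ho => hT t w F φ ht ht1 hw hF (fun ψ a b c => hweak ψ a b (c.trans hb')) hφ ho
  rw [add_assoc] at h1
  have h2 := lyr_absorb hfin hδa h1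
  have h3 : Q (ind (ball p (r / 4))) w ≤ N2 fun x => χ x * w x := Q_mono fun x => by
    by_cases hx : x ∈ ball p (r / 4)
    · rw [ind_of_mem hx, χ.one_of_mem_closedBall (ball_subset_closedBall hx), Complex.ofReal_one,
        one_mul (w x)]
    · rw [ind_of_notMem hx, zero_mul]
      positivity
  refine h3.trans (h2.trans ?_)
  rw [mul_add, ← mul_assoc, ← mul_assoc, ← ENNReal.ofReal_ofNat,
    ← ENNReal.ofReal_mul (by norm_num), ← ENNReal.ofReal_mul (by norm_num)]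
  gcongr

end Pool.Agent.MP_71da5e_an.A
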