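import Pool.Agent.MP_71da5e_an.Two.Phi
import Pool.Agent.MP_71da5e_an.Two.Defs

/-! The local Cauchy data determine the domain. -/

namespace Pool.Agent.MP_71da5e_an.A

open MeasureTheory Metric Set Laplacian Filter Topology
open scoped ContDiff ENNReal RealInnerProductSpace NNReal

variable {n : ℕ}

/-- Two points of a connected open set lie in a connected open set whose closure is inside. -/
theorem tube {G : Set (E n)} (hG : IsOpen G) (hc : IsPreconnected G) {y₀ : E n} (hy : y₀ ∈ G) :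
    G ⊆ {y | ∃ T, IsOpen T ∧ IsPreconnected T ∧ y₀ ∈ T ∧ y ∈ T ∧ closure T ⊆ G} := by
  have hb : ∀ x ∈ G, ∃ r > 0, closure (ball x r) ⊆ G := fun x hx => by
    obtain ⟨r, hr, h⟩ := nhds_basis_closedBall.mem_iff.1 (hG.mem_nhds hx)
    exact ⟨r, hr, closure_ball_subset_closedBall.trans h⟩
  refine hc.subset_of_closure_inter_subset ?_ ?_ ?_
  · refine isOpen_iff_mem_nhds.2 ?_
    rintro y ⟨T, a, b, c, d, e⟩
    exact mem_of_superset (a.mem_nhds d) fun z hz => ⟨T, a, b, c, hz, e⟩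
  · obtain ⟨r, hr, h⟩ := hb y₀ hy
    exact ⟨y₀, hy, _, isOpen_ball, (convex_ball _ _).isPreconnected, mem_ball_self hr,
      mem_ball_self hr, h⟩
  · rintro x ⟨h1, h2⟩
    obtain ⟨r, hr, h⟩ := hb x h2
    obtain ⟨y, ⟨T, a, b, c, d, e⟩, hd⟩ := Metric.mem_closure_iff.1 h1 r hr
    refine ⟨T ∪ ball x r, a.union isOpen_ball,
      b.union y d (mem_ball'.2 hd) (convex_ball _ _).isPreconnected, Or.inl c,
      Or.inr (mem_ball_self hr), ?_⟩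
    rw [closure_union]
    exact union_subset e h

/-- The potentials agree on the part of the intersection that is joined to `B`. -/
theorem step_one (core : L.CoreStmt) (hn : 3 ≤ n) {Ω₁ Ω₂ U B G : Set (E n)} (hΩ₁ : Dom Ω₁)
    (hΩ₂ : Dom Ω₂) (hU : IsOpen U) (hUΩ : Ω₁ ∩ U = Ω₂ ∩ U) (hB : IsOpen B) (hBU : closure B ⊆ U)
    (hc₁ : IsPreconnected (Ω₁ ∪ B)) (hc₂ : IsPreconnected (Ω₂ ∪ B)) {y₀ : E n} (hy : y₀ ∈ B)
    {s : ℝ} (hs : 0 < s) (hd₁ : Disjoint (ball y₀ s) Ω₁) (hd₂ : Disjoint (ball y₀ s) Ω₂)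
    (hG : IsOpen G) (hc : IsPreconnected G) (hyG : y₀ ∈ G) (hGV : G ⊆ Ω₁ ∩ Ω₂ ∪ B)
    {A : ℝ} {q₁ q₂ : E n → ℂ} (h₁ : Bd A q₁) (h₂ : Bd A q₂)
    (hyp : ∀ u, Ann Ω₁ B q₁ u → ∃ v, Pr Ω₁ Ω₂ U B q₁ q₂ u v) :
    ∀ᵐ x, x ∈ G → x ∈ Ω₁ → q₁ x = q₂ x := by
  set O : Set (E n) := G ∩ {x | ∃ ε > 0, ∀ᵐ z, z ∈ ball x ε → z ∈ Ω₁ → q₁ z = q₂ z} with hOdef
  have hO : IsOpen O := by
    refine hG.inter (Metric.isOpen_iff.2 ?_)
    rintro x ⟨ε, hε, hx⟩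
    refine ⟨ε, hε, fun x' hx' => ?_⟩
    obtain ⟨ε', hε', hb⟩ := Metric.isOpen_iff.1 isOpen_ball x' hx'
    exact ⟨ε', hε', hx.mono fun z hz hz' => hz (hb hz')⟩
  have hyO : y₀ ∈ O := ⟨hyG, s, hs,
    Eventually.of_forall fun z hz hz' => (disjoint_left.1 hd₁ hz hz').elim⟩
  have hae : ∀ᵐ z, z ∈ O → z ∈ Ω₁ → q₁ z = q₂ z := by
    refine measure_null_of_locally_null _ fun x hx => ?_
    have hxO : x ∈ O := by_contra fun h' => hx fun h'' => absurd h'' h'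
    obtain ⟨ε, hε, hx'⟩ := hxO.2
    refine ⟨_, inter_mem_nhdsWithin _ (ball_mem_nhds x hε), measure_mono_null ?_ hx'⟩
    exact fun z hz hz' => hz.1 fun _ => hz' hz.2
  have hUO : G ⊆ O := by
    by_contra hne
    obtain ⟨y, x₀, r, hr, hb1, hb2, hx, hx₀⟩ := touching hG hc hO inter_subset_left hyO hne
    have hGO := connectedComponentIn_subset O y₀
    obtain ⟨T, t1, t2, t3, t4, t5⟩ := tube hO.connectedComponentIn
      isPreconnected_connectedComponentIn (mem_connectedComponentIn hyO) (hb2 (mem_ball_self hr))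
    have a1 : IsOpen (T ∪ ball y r) := t1.union isOpen_ball
    have a2 : T ∪ ball y r ⊆ O := (union_subset (subset_closure.trans t5) hb2).trans hGO
    have a3 : closure (T ∪ ball y r) ⊆ G := by
      rw [closure_union]
      exact union_subset ((t5.trans hGO).trans inter_subset_left)
        ((closure_ball_subset_closedBall.trans
          (closedBall_subset_closedBall (by linarith))).trans hb1)
    have hZ : MeasurableSet (Ω₁ \ (T ∪ ball y r)) := hΩ₁.op.measurableSet.diff a1.measurableSet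
    obtain ⟨C, hC⟩ := data_two hΩ₁ hΩ₂ hU hUΩ hB hBU hc₁ hc₂ hy hs hd₁ hd₂ a1
      (t2.union y t4 (mem_ball_self hr) (convex_ball _ _).isPreconnected) (Or.inl t3)
      (a3.trans hGV) h₁ h₂ (hae.mono fun z hz hz' => hz (a2 hz')) hyp
    obtain ⟨ε, hε, h0⟩ := local_zero core hn hr hx
      (disjoint_left.2 fun z hz hz' => hz.2 (Or.inr hz')) h₁ h₂ (A' := 2 * A)
      ⟨(tw_bd h₁ h₂).1.indicator hZ, fun x => (norm_indicator_le_norm_self _ x).trans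
        ((tw_bd h₁ h₂).2 x)⟩ (fun x hx => indicator_of_notMem hx _) (C := C)
      fun v₁ v₂ a₁ a₂ b₁ b₂ => hC v₁ v₂ a₁ a₂ ((b₁.trans hb1).trans hGV) ((b₂.trans hb1).trans hGV)
    refine hx₀ ⟨hb1 (by rw [mem_closedBall, dist_eq_norm, hx]; linarith), ε, hε, ?_⟩
    filter_upwards [hae, h0] with z a b hz hz'
    by_cases hzG : z ∈ T ∪ ball y r
    · exact a (a2 hzG) hz'
    · have := b hz
      rwa [indicator_of_mem (show z ∈ Ω₁ \ (T ∪ ball y r) from ⟨hz', hzG⟩), sub_eq_zero] at this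
  exact hae.mono fun z hz hz' => hz (hUO hz')

theorem sub_bd (core : L.CoreStmt) (hn : 3 ≤ n) {Ω₁ Ω₂ U : Set (E n)} (hΩ₁ : Dom Ω₁)
    (hΩ₂ : Dom Ω₂) (hc₁ : IsPreconnected Ω₁) (hc₂ : IsPreconnected Ω₂) (hU : IsOpen U)
    (hUΩ : Ω₁ ∩ U = Ω₂ ∩ U) (hne : (U ∩ frontier Ω₁).Nonempty) {A : ℝ} {q₁ q₂ : E n → ℂ}
    (h₁ : Bd A q₁) (h₂ : Bd A q₂) (h : HypT Ω₁ Ω₂ U q₁ q₂) : Ω₁ ⊆ Ω₂ := by
  obtain ⟨p, hpU, hp₁⟩ := hne
  have hp₂ : p ∈ frontier Ω₂ := ((tw_fr hU hUΩ).subset ⟨hp₁, hpU⟩).1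
  obtain ⟨R, hR, hRU⟩ := nhds_basis_closedBall.mem_iff.1 (hU.mem_nhds hpU)
  have hBU : closure (ball p R) ⊆ U := closure_ball_subset_closedBall.trans hRU
  obtain ⟨ρ, hρ⟩ := hΩ₁.sm p hp₁
  obtain ⟨y₀, s, hs, hsB, hd₁⟩ := hρ.exterior hΩ₁.op hp₁ hR
  have hd₂ : Disjoint (ball y₀ s) Ω₂ := disjoint_left.2 fun z hz hz' =>
    disjoint_left.1 hd₁ hz (hUΩ.superset ⟨hz', hBU (subset_closure (hsB hz))⟩).1
  have hcB : ∀ {Ω : Set (E n)}, IsPreconnected Ω → p ∈ frontier Ω →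
      IsPreconnected (Ω ∪ ball p R) := fun hc hp => by
    obtain ⟨z, hz, hd⟩ := Metric.mem_closure_iff.1 (frontier_subset_closure hp) R hR
    exact hc.union z hz (mem_ball'.2 hd) (convex_ball p R).isPreconnected
  have hyB : y₀ ∈ ball p R := hsB (mem_ball_self hs)
  have hV : IsOpen (Ω₁ ∩ Ω₂ ∪ ball p R) := (hΩ₁.op.inter hΩ₂.op).union isOpen_ball
  have hG := hV.connectedComponentIn (x := y₀)
  have hGV := connectedComponentIn_subset (Ω₁ ∩ Ω₂ ∪ ball p R) y₀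
  have hyG := mem_connectedComponentIn (F := Ω₁ ∩ Ω₂ ∪ ball p R) (Or.inr hyB)
  have hyp := fun u => pr_of_hyp (u := u) hΩ₁ hΩ₂ hU hUΩ hBU h₁ h₂ h
  have hf := step_one core hn hΩ₁ hΩ₂ hU hUΩ isOpen_ball hBU (hcB hc₁ hp₁) (hcB hc₂ hp₂) hyB hs
    hd₁ hd₂ hG isPreconnected_connectedComponentIn hyG hGV h₁ h₂ hyp
  obtain ⟨C, he⟩ := est_exists hΩ₁ isOpen_ball (hcB hc₁ hp₁) hyB hs hd₁ h₁
  have key : Ω₁ ⊆ connectedComponentIn (Ω₁ ∩ Ω₂ ∪ ball p R) y₀ := by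
    refine hc₁.subset_of_closure_inter_subset hG ?_ ?_
    · obtain ⟨z, hz, hd⟩ := Metric.mem_closure_iff.1 (frontier_subset_closure hp₁) R hR
      exact ⟨z, hz, amain_sub (convex_ball p R).isPreconnected subset_union_right hyB hyG
        (mem_ball'.2 hd)⟩
    · rintro x ⟨x4, x1⟩
      by_cases x5 : x ∈ Ω₂
      · obtain ⟨ε, hε, hb⟩ := Metric.isOpen_iff.1 hV x (Or.inl ⟨x1, x5⟩)
        obtain ⟨z, hz, hd⟩ := Metric.mem_closure_iff.1 x4 ε hε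
        exact amain_sub (convex_ball x ε).isPreconnected hb (mem_ball'.2 hd) hz
          (mem_ball_self hε)
      have x3 : x ∉ closure (ball p R) := fun h' => x5 (hUΩ.subset ⟨x1, hBU h'⟩).1
      have x6 : x ∈ closure Ω₂ := by
        have := closure_mono (hGV.trans (union_subset_union_left _ inter_subset_right)) x4
        rw [closure_union] at this
        exact this.resolve_right x3
      exact (step_two hn hΩ₁.op hΩ₂ hs hd₁ hd₂ hG isPreconnected_connectedComponentIn hyG hGV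
        (subset_closure.trans hBU)
        (fun S a b ⟨z, c, d⟩ => amain_sub a (b.trans subset_union_left) c d) h₁ h₂ he hf hyp x1
        (by rw [hΩ₂.op.frontier_eq]; exact ⟨x6, x5⟩) x3 x4).elim
  exact fun x hx => (hGV (key hx)).elim (fun h' => h'.2)
    fun h' => (hUΩ.subset ⟨hx, hBU (subset_closure h')⟩).1

theorem tw_data {Ω : Set (E n)} (U : Set (E n)) {q q' : E n → ℂ}
    (h : q =ᵐ[volume.restrict Ω] q') : data Ω U q ⊆ data Ω U q' := by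
  have e : green Ω q = green Ω q' := by
    funext u φ
    exact integral_congr_ae (h.mono fun x hx => by simp only [hx])
  rintro _ ⟨u, hu, rfl⟩
  exact ⟨u, ⟨hu.memL2, e ▸ hu.solves, e ▸ hu.supp⟩, by rw [e]⟩

theorem sub_of_data (hn : 3 ≤ n) {Ω₁ Ω₂ U : Set (E n)} (hΩ₁ : Dom Ω₁)
    (hΩ₂ : Dom Ω₂) (hc₁ : IsPreconnected Ω₁) (hc₂ : IsPreconnected Ω₂) (hU : IsOpen U)
    (hUΩ : Ω₁ ∩ U = Ω₂ ∩ U) (hne : (U ∩ frontier Ω₁).Nonempty) {q₁ q₂ : E n → ℂ}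
    (h₁ : MemLp q₁ ⊤ (volume.restrict Ω₁)) (h₂ : MemLp q₂ ⊤ (volume.restrict Ω₂))
    (h : data Ω₁ U q₁ ⊆ data Ω₂ U q₂) : Ω₁ ⊆ Ω₂ := by
  obtain ⟨A₁, r₁, b₁, e₁⟩ := amain_rep h₁
  obtain ⟨A₂, r₂, b₂, e₂⟩ := amain_rep h₂
  refine sub_bd L.core hn hΩ₁ hΩ₂ hc₁ hc₂ hU hUΩ hne (A := max A₁ A₂)
    ⟨b₁.1, fun x => (b₁.2 x).trans (le_max_left _ _)⟩
    ⟨b₂.1, fun x => (b₂.2 x).trans (le_max_right _ _)⟩ fun u hu => ?_
  obtain ⟨v, hv, e⟩ := ((tw_data U e₁.symm).trans (h.trans (tw_data U e₂))) ⟨u, hu, rfl⟩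
  exact ⟨v, hv, fun φ a b => congrFun e ⟨φ, a, b⟩⟩

theorem two_main (hn : 3 ≤ n) {Ω₁ Ω₂ U : Set (E n)} (hΩ₁ : Dom Ω₁)
    (hΩ₂ : Dom Ω₂) (hc₁ : IsPreconnected Ω₁) (hc₂ : IsPreconnected Ω₂) (hU : IsOpen U)
    (hUΩ : Ω₁ ∩ U = Ω₂ ∩ U) (hne : (U ∩ frontier Ω₁).Nonempty) {q₁ q₂ : E n → ℂ}
    (h₁ : MemLp q₁ ⊤ (volume.restrict Ω₁)) (h₂ : MemLp q₂ ⊤ (volume.restrict Ω₂))
    (h : data Ω₁ U q₁ = data Ω₂ U q₂) : Ω₁ = Ω₂ := by
  refine (sub_of_data hn hΩ₁ hΩ₂ hc₁ hc₂ hU hUΩ hne h₁ h₂ h.subset).antisymm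
    (sub_of_data hn hΩ₂ hΩ₁ hc₂ hc₁ hU hUΩ.symm ?_ h₂ h₁ h.superset)
  obtain ⟨p, a, b⟩ := hne
  exact ⟨p, a, ((tw_fr hU hUΩ).subset ⟨b, a⟩).1⟩

end Pool.Agent.MP_71da5e_an.A
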