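import Pool.Agent.MP_71da5e_an.Two.Dat

/-! A hypersurface inside the first domain cannot carry zero Dirichlet data of all solutions. -/

namespace Pool.Agent.MP_71da5e_an.A

open MeasureTheory Metric Set Laplacian Filter Topology
open scoped ContDiff ENNReal RealInnerProductSpace NNReal

variable {n : ℕ}

/-- A test function that vanishes on the boundary and solves an equation near `p`. -/
theorem exists_phi {Ω : Set (E n)} (hΩ : IsOpen Ω) {p : E n} (hp : p ∈ frontier Ω)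
    {ρ : E n → ℝ} (hρ : IsDef Ω p ρ) {N : Set (E n)} (hN : N ∈ 𝓝 p) :
    ∃ (φ q : E n → ℂ) (τ A : ℝ), Tst φ ∧ tsupport φ ⊆ N ∧ (∀ z ∈ frontier Ω, φ z = 0) ∧ 0 < τ ∧
      ball p τ ⊆ N ∧ Bd A q ∧ ∀ z ∈ ball p τ, Δ φ z = q z * φ z ∧ (z ∈ Ω → φ z ≠ 0) := by
  obtain ⟨ε, hε, hb⟩ := Metric.eventually_nhds_iff_ball.1
    ((show ∀ᶠ x in 𝓝 p, x ∈ N from hN).and (hρ.near.and (hρ.zero hΩ)))
  have hsub : closedBall p (ε / 2) ⊆ ball p ε := closedBall_subset_ball (half_lt_self hε)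
  let β : ContDiffBump p := ⟨ε / 4, ε / 2, by positivity, by linarith⟩
  have β0 : ∀ x, x ∉ closedBall p (ε / 2) → β x = 0 := fun x hx =>
    β.zero_of_le_dist (not_le.1 fun h => hx (mem_closedBall.2 h)).le
  have hg := hypc_grad hρ.1
  have hL := contDiff_lap hρ.1
  let c : E n → ℝ := fun x => β x * (-Δ ρ x * (2 * ‖gradient ρ x‖ ^ 2)⁻¹)
  have hc : ContDiff ℝ ∞ c := contDiff_of_closed isOpen_ball isClosed_closedBall hsub
    (β.contDiff.contDiffOn.mul (hL.neg.contDiffOn.mul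
      ((contDiff_const.mul (hg.norm_sq ℝ)).contDiffOn.inv fun x hx =>
        mul_ne_zero two_ne_zero (pow_ne_zero _ (norm_ne_zero_iff.2 (hb x hx).2.1.2.1)))))
    fun x hx => by simp only [c, β0 x hx, zero_mul]
  let χ : E n → ℝ := fun x => β x * (1 + c x * ρ x)
  have hχ : ContDiff ℝ ∞ χ := β.contDiff.mul (contDiff_const.add (hc.mul hρ.1))
  have hρc : ContDiff ℝ ∞ fun x => ((ρ x : ℝ) : ℂ) := Complex.ofRealCLM.contDiff.comp hρ.1
  have hφ : ContDiff ℝ ∞ fun x => ((χ x : ℝ) : ℂ) * ((ρ x : ℝ) : ℂ) :=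
    (Complex.ofRealCLM.contDiff.comp hχ).mul hρc
  have hs : tsupport (fun x => ((χ x : ℝ) : ℂ) * ((ρ x : ℝ) : ℂ)) ⊆ closedBall p (ε / 2) :=
    closure_minimal (fun x hx => by_contra fun hx' => hx (by simp [χ, β0 x hx']))
      isClosed_closedBall
  let m : E n → ℝ := fun x => c x * Δ ρ x + 2 * fderiv ℝ c x (gradient ρ x) + Δ χ x
  have hm : Continuous m :=
    ((hc.continuous.mul hL.continuous).add (continuous_const.mul
      ((hc.continuous_fderiv (by simp)).clm_apply hg.continuous))).add (contDiff_lap hχ).continuous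
  obtain ⟨K, hK⟩ := (isCompact_closedBall p ε).exists_bound_of_continuousOn hm.continuousOn
  have χp : χ p = 1 := by
    simp only [χ, β.one_of_mem_closedBall (mem_closedBall_self β.rIn_pos.le),
      (hb p (mem_ball_self hε)).2.2 hp, mul_zero, add_zero, mul_one]
  obtain ⟨τ, hτ, hτb⟩ := Metric.eventually_nhds_iff_ball.1
    ((hχ.continuous.continuousAt.eventually (lt_mem_nhds (show 1 / 2 < χ p by rw [χp]; norm_num))).and
      (ball_mem_nhds p (show 0 < ε / 4 by positivity)))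
  have hτε : ∀ z ∈ ball p τ, z ∈ ball p ε := fun z hz =>
    ball_subset_ball (by linarith) (hτb z hz).2
  refine ⟨_, (ball p τ).indicator fun x => ((m x / χ x : ℝ) : ℂ), τ, 2 * K,
    ⟨hφ, (isCompact_closedBall _ _).of_isClosed_subset (isClosed_tsupport _) hs⟩,
    fun x hx => (hb x (hsub (hs hx))).1, fun z hz => ?_, hτ, fun z hz => (hb z (hτε z hz)).1,
    ⟨(Complex.measurable_ofReal.comp (hm.measurable.div hχ.continuous.measurable)).indicator
      measurableSet_ball, fun x => ?_⟩, fun z hz => ⟨?_, fun hz' => ?_⟩⟩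
  · by_cases h : z ∈ closedBall p (ε / 2)
    · rw [(hb z (hsub h)).2.2 hz, Complex.ofReal_zero, mul_zero]
    · exact by_contra fun h' => h (hs (subset_tsupport _ h'))
  · have K0 : 0 ≤ K := (norm_nonneg _).trans (hK p (mem_closedBall_self hε.le))
    by_cases h : x ∈ ball p τ
    · have h1 := (hτb x h).1
      have h2 := hK x (ball_subset_closedBall (hτε x h))
      rw [indicator_of_mem h, Complex.norm_real, norm_div, Real.norm_of_nonneg (r := χ x)
        (by linarith), div_le_iff₀ (by linarith)]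
      nlinarith
    · rw [indicator_of_notMem h, norm_zero]
      positivity
  · have h1 := (hτb z hz).1
    have b1 : ∀ y ∈ ball p (ε / 4), β y = 1 := fun y hy =>
      β.one_of_mem_closedBall (ball_subset_closedBall hy)
    have e1 : χ =ᶠ[𝓝 z] fun x => 1 + c x * ρ x := by
      filter_upwards [isOpen_ball.mem_nhds (hτb z hz).2] with y hy
      simp only [χ, b1 y hy, one_mul]
    have dρ := (hρ.1.differentiable (by simp) z).hasFDerivAt
    have dc := (hc.differentiable (by simp) z).hasFDerivAt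
    have e2 : fderiv ℝ ρ z (gradient χ z) =
        c z * ‖gradient ρ z‖ ^ 2 + ρ z * fderiv ℝ c z (gradient ρ z) := by
      rw [flat_fderiv, real_inner_comm, ← flat_fderiv, e1.fderiv_eq,
        ((dc.fun_mul dρ).const_add 1).fderiv]
      simp only [add_apply, smul_apply, smul_eq_mul]
      rw [flat_fderiv ρ, real_inner_self_eq_norm_sq]
    have e3 : fderiv ℝ (fun x => ((ρ x : ℝ) : ℂ)) z (gradient χ z) =
        ((fderiv ℝ ρ z (gradient χ z) : ℝ) : ℂ) := by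
      rw [show fderiv ℝ (fun x => ((ρ x : ℝ) : ℂ)) z = Complex.ofRealCLM.comp (fderiv ℝ ρ z) from
        (Complex.ofRealCLM.hasFDerivAt.comp z dρ).fderiv]
      rfl
    have g0 : ‖gradient ρ z‖ ≠ 0 := norm_ne_zero_iff.2 (hb z (hτε z hz)).2.1.2.1
    have e4 : 2 * (c z * ‖gradient ρ z‖ ^ 2) = -Δ ρ z := by
      simp only [c, b1 z (hτb z hz).2]
      field_simp
    have e5 : χ z * Δ ρ z + 2 * fderiv ℝ ρ z (gradient χ z) + Δ χ z * ρ z =
        m z / χ z * (χ z * ρ z) := by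
      rw [← mul_assoc, div_mul_cancel₀ _ (by linarith), e2, e1.self_of_nhds]
      simp only [m]
      linear_combination e4
    rw [lap_smul (hχ.of_le scut_two).contDiffAt (hρc.of_le scut_two).contDiffAt, e3,
      calc_lap_ofReal (hρ.1.of_le scut_two).contDiffAt, indicator_of_mem hz]
    exact_mod_cast e5
  · have h1 := (hτb z hz).1
    have h2 : ρ z < 0 := (hb z (hτε z hz)).2.1.2.2.self_of_nhds.1 hz'
    exact mul_ne_zero (Complex.ofReal_ne_zero.2 (by linarith)) (Complex.ofReal_ne_zero.2 h2.ne)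

theorem exists_perp (hn : 3 ≤ n) (ν : E n) : ∃ e : E n, ‖e‖ = 1 ∧ ⟪e, ν⟫ = 0 := by
  have h1 : Module.finrank ℝ (ℝ ∙ ν) ≤ 1 := by
    simpa using finrank_span_le_card (R := ℝ) ({ν} : Set (E n))
  have h2 := (ℝ ∙ ν).finrank_add_finrank_orthogonal
  rw [finrank_euclideanSpace_fin] at h2
  have h3 : (ℝ ∙ ν)ᗮ ≠ ⊥ := fun h => by
    rw [h, finrank_bot] at h2
    omega
  obtain ⟨v, hv, h0⟩ := Submodule.exists_mem_ne_zero_of_ne_bot h3
  refine ⟨‖v‖⁻¹ • v, norm_smul_inv_norm h0, ?_⟩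
  rw [real_inner_smul_left, Submodule.mem_orthogonal_singleton_iff_inner_left.1 hv, mul_zero]

theorem wp_congr {V : Set (E n)} {w F F' : E n → ℂ} (h : WP V w F) (hF : WL2 F')
    (e : ∀ᵐ x, x ∈ V → F x = F' x) : WP V w F' := by
  refine ⟨h.1, hF, fun φ hφ hs => ?_⟩
  rw [← h.2.2 φ hφ hs]
  refine integral_congr_ae ?_
  filter_upwards [e] with x hx
  by_cases hx' : x ∈ V
  · rw [hx hx']
  · rw [image_eq_zero_of_notMem_tsupport fun h' => hx' (hs h'), mul_zero, mul_zero]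

/-- No boundary point of the second domain lies in the first domain and in the closure of the
common part. -/
theorem step_two (hn : 3 ≤ n) {Ω₁ Ω₂ U B G : Set (E n)} (hΩ₁ : IsOpen Ω₁) (hΩ₂ : Dom Ω₂)
    {y₀ : E n} {s : ℝ} (hs : 0 < s) (hd₁ : Disjoint (ball y₀ s) Ω₁)
    (hd₂ : Disjoint (ball y₀ s) Ω₂) (hG : IsOpen G) (hc : IsPreconnected G) (hyG : y₀ ∈ G)
    (hGV : G ⊆ Ω₁ ∩ Ω₂ ∪ B) (hBU : B ⊆ U)
    (hmax : ∀ S, IsPreconnected S → S ⊆ Ω₁ ∩ Ω₂ → (S ∩ G).Nonempty → S ⊆ G)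
    {A C : ℝ} {q₁ q₂ : E n → ℂ} (h₁ : Bd A q₁) (h₂ : Bd A q₂) (he : Est Ω₁ B q₁ C)
    (hf : ∀ᵐ x, x ∈ G → x ∈ Ω₁ → q₁ x = q₂ x)
    (hyp : ∀ u, Ann Ω₁ B q₁ u → ∃ v, Pr Ω₁ Ω₂ U B q₁ q₂ u v)
    {x : E n} (x1 : x ∈ Ω₁) (x2 : x ∈ frontier Ω₂) (x3 : x ∉ closure B) (x4 : x ∈ closure G) :
    False := by
  obtain ⟨ρ₀, hρ⟩ := hΩ₂.sm x x2
  obtain ⟨r, M, ν, Ψ, ch⟩ := exists_chart hΩ₂.op x2 hρ one_pos
  obtain ⟨e, e1, e0⟩ := exists_perp hn ν
  have hz : ⟪Ψ x, ν⟫ = 0 := ch.fr x (mem_ball_self ch.r_pos) x2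
  have νν : ⟪ν, ν⟫ = 1 := by rw [real_inner_self_eq_norm_sq, ch.unit, one_pow]
  have ee : ⟪e, e⟫ = 1 := by rw [real_inner_self_eq_norm_sq, e1, one_pow]
  have νe : ⟪ν, e⟫ = 0 := by rw [real_inner_comm, e0]
  obtain ⟨ρ, hρ0, hN⟩ : ∃ ρ > 0, Ψ ⁻¹' ball (Ψ x) (3 * ρ) ⊆ ball x r ∩ (Ω₁ ∩ (closure B)ᶜ) := by
    have h : ball x r ∩ (Ω₁ ∩ (closure B)ᶜ) ∈ 𝓝 (Ψ.symm (Ψ x)) := by
      rw [Ψ.symm_apply_apply]
      exact inter_mem (ball_mem_nhds x ch.r_pos) (inter_mem (hΩ₁.mem_nhds x1)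
        (isClosed_closure.isOpen_compl.mem_nhds x3))
    obtain ⟨t, ht, hb⟩ := Metric.mem_nhds_iff.1 (Ψ.symm.continuous.continuousAt h)
    refine ⟨t / 3, by positivity, fun y hy => ?_⟩
    have := hb (show Ψ y ∈ ball (Ψ x) t by rwa [mem_preimage, mul_div_cancel₀ _ (by norm_num)] at hy)
    rwa [mem_preimage, Ψ.symm_apply_apply] at this
  have nb : ∀ t : ℝ, 0 < t → Ψ ⁻¹' ball (Ψ x) t ∈ 𝓝 x := fun t ht =>
    Ψ.continuous.continuousAt (ball_mem_nhds _ ht)
  have hH : ∀ y ∈ Ψ ⁻¹' ball (Ψ x) (3 * ρ), y ∈ Ω₂ → y ∈ G := by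
    have c1 : IsPreconnected (Ψ ⁻¹' (ball (Ψ x) (3 * ρ) ∩ Hs ν)) :=
      Ψ.isPreconnected_preimage.2 ((convex_ball _ _).inter
        (convex_halfSpace_gt (f := fun y : E n => ⟪y, ν⟫) ⟨fun a b => inner_add_left a b ν,
          fun c a => real_inner_smul_left a ν c⟩ 0)).isPreconnected
    obtain ⟨y, y1, y2⟩ := mem_closure_iff_nhds.1 x4 _ (nb _ (by positivity : 0 < 3 * ρ))
    have y3 : y ∈ Ω₂ := ((hGV y2).resolve_right fun h => (hN y1).2.2 (subset_closure h)).2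
    have := hmax _ c1 (fun w hw => ⟨(hN hw.1).2.1, (ch.mem w (hN hw.1).1).2 hw.2⟩)
      ⟨y, ⟨y1, (ch.mem y (hN y1).1).1 y3⟩, y2⟩
    exact fun w hw hw' => this ⟨hw, (ch.mem w (hN hw).1).1 hw'⟩
  have hρ3 : Ψ ⁻¹' ball (Ψ x) ρ ⊆ Ψ ⁻¹' ball (Ψ x) (3 * ρ) :=
    preimage_mono (ball_subset_ball (by linarith))
  obtain ⟨φ, q, τ, A', hφ, φs, φ0, hτ, τb, hq, hφq⟩ := exists_phi hΩ₂.op x2 hρ (nb ρ hρ0)
  have φN := (φs.trans hρ3).trans hN
  have Pz : ∀ (q' : E n → ℂ) y, y ∉ tsupport φ → Pq q' φ y = 0 := fun q' y hy => by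
    rw [Pq, image_eq_zero_of_notMem_tsupport hy,
      image_eq_zero_of_notMem_tsupport fun h => hy (tsupport_lap φ h), mul_zero, sub_zero]
  obtain ⟨p1, p2⟩ := dataA_Pq h₁ hφ
  have hg : L2 Ω₁ (Ω₂.indicator (Pq q₁ φ)) :=
    ⟨p1.indicator hΩ₂.op.measurableSet, by
      rw [dataA_ind]
      exact ne_top_of_le_ne_top p2 (Q_ind_le _ _),
      fun y hy => indicator_apply_eq_zero.2 fun _ => Pz _ y fun h => hy (φN h).2.1⟩
  obtain ⟨w, hw⟩ := range_of_perp hΩ₁.measurableSet h₁ he hg fun u hu => by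
    obtain ⟨v, hp⟩ := hyp u hu
    have z := hp.zero hG hc (hGV.trans (union_subset_union_right _ hBU)) hyG hs hd₁ hd₂ h₁ h₂ hf
    rw [← neg_eq_zero, ← integral_neg,
      ← hp.dir φ hφ φ0 (disjoint_left.2 fun y hy => (φN hy).2.2)]
    refine integral_congr_ae ?_
    filter_upwards [z, hf] with y a b
    by_cases y1 : y ∈ Ω₂
    · rw [indicator_of_mem y1]
      by_cases y2 : y ∈ tsupport φ
      · have y3 := hH y (hρ3 (φs y2)) y1
        rw [sub_eq_zero.1 (a y3), Pq, b y3 (φN y2).2.1]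
        ring
      · have := Pz q₂ y y2
        rw [Pz q₁ y y2]
        rw [Pq] at this
        linear_combination (v y) * this
    · rw [indicator_of_notMem y1, hp.l2.zero y y1]
      ring
  have W := hw.wp hΩ₁ h₁
  have z0 : WL2 fun _ : E n => (0 : ℂ) := ⟨measurable_const, by simp [Q]⟩
  have lφ := L2.of_continuous hΩ₂ hφ.1.continuous
  have lΔ := L2.of_continuous hΩ₂ hφ.lap.1.continuous
  have ka : ∀ᵐ y, y ∈ G → w y - Ω₂.indicator φ y = 0 := by
    have k1 := hw.lw.wl2.sub lφ.wl2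
    refine ucp hG hc hyG hs h₁ z0 ⟨k1, z0.add (k1.mul h₁.1 h₁.2), fun ψ hψ ψs => ?_⟩
      (dataA_two' hw.lw.meas (fun _ => norm_sub_le _ _) hw.lw.fin lφ.fin)
      (Eventually.of_forall fun _ _ => rfl) (Eventually.of_forall fun y hy => ?_)
    · have a1 := W.2.2 ψ hψ ((ψs.trans hGV).trans (union_subset_union_left _ inter_subset_left))
      have a2 := green_dom hΩ₂ hφ.1 hψ.1 fun y hy => by
        by_cases y1 : y ∈ tsupport ψ
        · exact Or.inr (Or.inl fun h => (φN h).2.2 (subset_closure ((hGV (ψs y1)).resolve_left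
            fun h' => (hΩ₂.op.frontier_eq ▸ hy).2 h'.2)))
        · exact Or.inr (Or.inr y1)
      have i1 := (W.2.1.integrable_mul hψ.1.continuous hψ.2).sub
        (W.1.integrable_mul hψ.lap.1.continuous hψ.lap.2)
      have i2 := (lΔ.wl2.integrable_mul hψ.1.continuous hψ.2).sub
        (lφ.wl2.integrable_mul hψ.lap.1.continuous hψ.lap.2)
      refine Eq.trans ?_ ((integral_sub i1 i2).trans ((congrArg₂ _ a1 a2).trans (sub_zero 0)))
      refine integral_congr_ae (Eventually.of_forall fun y => ?_)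
      by_cases y1 : y ∈ Ω₂
      · simp only [Pi.sub_apply, indicator_of_mem y1, Pq]
        ring
      · simp only [Pi.sub_apply, indicator_of_notMem y1]
        ring
    · rw [hw.lw.zero y (disjoint_left.1 hd₁ hy), lφ.zero y (disjoint_left.1 hd₂ hy), sub_zero]
  obtain ⟨t, ⟨t1, t2⟩, t0⟩ : ∃ t : ℝ, (Ψ.symm (Ψ x - t • ν) ∈ ball x τ ∧ t < ρ) ∧ 0 < t := by
    have c1 : Continuous fun t : ℝ => Ψ.symm (Ψ x - t • ν) := by fun_prop
    have a1 : ∀ᶠ t : ℝ in 𝓝 0, Ψ.symm (Ψ x - t • ν) ∈ ball x τ :=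
      c1.continuousAt.eventually (isOpen_ball.mem_nhds (by simpa using hτ))
    exact (((a1.and (gt_mem_nhds hρ0)).filter_mono (nhdsWithin_le_nhds (s := Ioi 0))).and
      self_mem_nhdsWithin).exists
  set L : E n →L[ℝ] ℝ := ρ • innerSL ℝ ν - (t / 2) • innerSL ℝ e with hL
  have La : ∀ y, L y = ρ * ⟪ν, y⟫ - t / 2 * ⟪e, y⟫ := fun y => rfl
  set S : Set (E n) := Ψ ⁻¹' (ball (Ψ x) (3 * ρ) ∩ {y | L y < L (Ψ x) - t / 2 * ρ}) with hS
  have So : IsOpen S := (isOpen_ball.inter (isOpen_lt L.continuous continuous_const)).preimage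
    Ψ.continuous
  have Sc : IsPreconnected S := Ψ.isPreconnected_preimage.2
    ((convex_ball _ _).inter (convex_halfSpace_lt L.toLinearMap.isLinear _)).isPreconnected
  have Sφ : ∀ y ∈ S, y ∈ Ω₂ → y ∉ tsupport φ := fun y y1 y2 y3 => by
    have a1 : 0 < ⟪Ψ y, ν⟫ := (ch.mem y (hN y1.1).1).1 y2
    have a2 : L (Ψ y) < L (Ψ x) - t / 2 * ρ := y1.2
    have a3 : ‖Ψ y - Ψ x‖ < ρ := mem_ball_iff_norm.1 (φs y3)
    have a4 := real_inner_le_norm e (Ψ y - Ψ x)
    rw [e1, one_mul, inner_sub_right] at a4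
    rw [La, La, real_inner_comm (Ψ x) ν, hz, real_inner_comm (Ψ y) ν] at a2
    nlinarith [mul_pos hρ0 a1]
  have kb : ∀ᵐ y, y ∈ S → w y = 0 := by
    have m1 : Ψ.symm (Ψ x + ((2 * ρ) • e + (t / 4) • ν)) ∈ S ∩ Ω₂ := by
      have a1 : Ψ.symm (Ψ x + ((2 * ρ) • e + (t / 4) • ν)) ∈ Ψ ⁻¹' ball (Ψ x) (3 * ρ) := by
        rw [mem_preimage, Ψ.apply_symm_apply, add_mem_ball_iff_norm]
        refine (norm_add_le _ _).trans_lt ?_
        rw [norm_smul, norm_smul, e1, ch.unit, Real.norm_of_nonneg (by positivity),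
          Real.norm_of_nonneg (by positivity)]
        linarith
      refine ⟨⟨a1, ?_⟩, (ch.mem _ (hN a1).1).2 ?_⟩
      · change L (Ψ (Ψ.symm _)) < _
        rw [Ψ.apply_symm_apply, map_add, La (_ + _)]
        simp only [inner_add_right, real_inner_smul_right, νν, ee, νe, e0]
        nlinarith [mul_pos hρ0 t0]
      · change 0 < ⟪Ψ (Ψ.symm _), ν⟫
        rw [Ψ.apply_symm_apply]
        simp only [inner_add_left, real_inner_smul_left, νν, hz, e0]
        linarith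
    obtain ⟨σ, hσ, hb⟩ := Metric.isOpen_iff.1 (So.inter hΩ₂.op) _ m1
    refine ucp So Sc m1.1 hσ h₁ hg.wl2
      (WP.mono' W fun y hy => Or.inl (hN hy.1).2.1) hw.lw.fin
      (Eventually.of_forall fun y hy => indicator_apply_eq_zero.2 fun h => Pz _ y (Sφ y hy h)) ?_
    filter_upwards [ka] with y a hy
    have a1 := a (hH y (hb hy).1.1 (hb hy).2)
    rwa [indicator_of_mem (hb hy).2, image_eq_zero_of_notMem_tsupport (Sφ y (hb hy).1 (hb hy).2),
      sub_zero] at a1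
  have kc : ∀ᵐ y, y ∈ ball x τ → w y = 0 := by
    have m2 : Ψ.symm (Ψ x - t • ν) ∈ S := by
      refine ⟨hρ3 (τb t1), ?_⟩
      change L (Ψ (Ψ.symm _)) < _
      rw [Ψ.apply_symm_apply, map_sub, La (_ • _)]
      simp only [real_inner_smul_right, νν, e0]
      nlinarith [mul_pos hρ0 t0]
    obtain ⟨σ, hσ, hb⟩ := Metric.isOpen_iff.1 So _ m2
    classical
    have hq' : Bd (max A A') (Ω₂.piecewise q q₁) :=
      ⟨hq.1.piecewise hΩ₂.op.measurableSet h₁.1, fun y => by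
        by_cases y1 : y ∈ Ω₂
        · rw [piecewise_eq_of_mem _ _ _ y1]
          exact (hq.2 y).trans (le_max_right _ _)
        · rw [piecewise_eq_of_notMem _ _ _ y1]
          exact (h₁.2 y).trans (le_max_left _ _)⟩
    refine ucp isOpen_ball (convex_ball x τ).isPreconnected t1 hσ hq' z0
      (wp_congr (WP.mono' W fun y hy => Or.inl (hN (hρ3 (τb hy))).2.1)
        (z0.add (hw.lw.wl2.mul hq'.1 hq'.2)) ?_) hw.lw.fin
      (Eventually.of_forall fun _ _ => rfl) (kb.mono fun y a hy => a (hb hy))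
    filter_upwards [ka] with y a hy
    by_cases y1 : y ∈ Ω₂
    · have a1 := a (hH y (hρ3 (τb hy)) y1)
      rw [indicator_of_mem y1, sub_eq_zero] at a1
      rw [indicator_of_mem y1, piecewise_eq_of_mem _ _ _ y1, a1, Pq, (hφq y hy).1]
      ring
    · rw [indicator_of_notMem y1, piecewise_eq_of_notMem _ _ _ y1]
  have fin : volume (ball x τ ∩ Ω₂) = 0 := by
    refine measure_eq_zero_iff_ae_notMem.2 ?_
    filter_upwards [ka, kc] with y a b hy
    have a1 := a (hH y (hρ3 (τb hy.1)) hy.2)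
    rw [indicator_of_mem hy.2, b hy.1, zero_sub, neg_eq_zero] at a1
    exact (hφq y hy.1).2 hy.2 a1
  exact ((isOpen_ball.inter hΩ₂.op).measure_pos volume
    (mem_closure_iff_nhds.1 (frontier_subset_closure x2) _ (ball_mem_nhds x hτ))).ne' fin

end Pool.Agent.MP_71da5e_an.A
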